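import Mathlib

set_option autoImplicit false

/-!
# From an injective Lipschitz binary tree to a subgraph with positive Cheeger constant
-/

namespace Pool.Agent.W_55e385_h22

/-- `G` contains an infinite subgraph with positive Cheeger constant. -/
def HasExpandingSubgraph {V : Type} (G : SimpleGraph V) : Prop :=
  ∃ H : G.Subgraph, H.verts.Infinite ∧
    ∃ ε : ℝ, 0 < ε ∧
      ∀ S : Finset V, S.Nonempty → (↑S : Set V) ⊆ H.verts →
        ε * (S.card : ℝ) ≤
          (({p : V × V | p.1 ∈ S ∧ p.2 ∉ S ∧ H.Adj p.1 p.2}.ncard : ℕ) : ℝ)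

section

variable {V : Type} {G : SimpleGraph V} {D : ℕ}

theorem ball_bound (hD : ∀ v, (G.neighborSet v).Finite ∧ (G.neighborSet v).ncard ≤ D) (n : ℕ) :
    ∃ B : ℕ, ∀ v : V, ∃ F : Finset V, (∀ (w : V) (p : G.Walk v w), p.length ≤ n → w ∈ F) ∧
      F.card ≤ B := by
  classical
  induction n with
  | zero =>
    refine ⟨1, fun v => ⟨{v}, ?_, by simp⟩⟩
    intro w p hp
    have : p.length = 0 := by omega
    have := SimpleGraph.Walk.eq_of_length_eq_zero this
    simp [this]
  | succ n ih =>
    obtain ⟨B, hB⟩ := ih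
    choose F hF hFc using hB
    refine ⟨1 + D * B, fun v => ⟨insert v ((hD v).1.toFinset.biUnion F), ?_, ?_⟩⟩
    · intro w p hp
      cases p with
      | nil => exact Finset.mem_insert_self _ _
      | cons h q =>
        rw [SimpleGraph.Walk.length_cons] at hp
        refine Finset.mem_insert_of_mem (Finset.mem_biUnion.2 ⟨_, ?_, hF _ w q (by omega)⟩)
        rw [Set.Finite.mem_toFinset]
        exact h
    · refine (Finset.card_insert_le _ _).trans ?_
      rw [add_comm]
      gcongr
      refine (Finset.card_biUnion_le_card_mul _ _ B (fun u _ => hFc u)).trans ?_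
      gcongr
      rw [← Set.ncard_eq_toFinset_card _ (hD v).1]
      exact (hD v).2

theorem tree_subgraph (hD : ∀ v, (G.neighborSet v).Finite ∧ (G.neighborSet v).ncard ≤ D)
    (f : List Bool → V) (hf : Function.Injective f) (L : ℕ)
    (hL : ∀ t b, ∃ p : G.Walk (f t) (f (t ++ [b])), p.length ≤ L) : HasExpandingSubgraph G := by
  classical
  choose p hp using hL
  obtain ⟨B, hB⟩ := ball_bound hD L
  choose F hF hFc using hB
  set H : G.Subgraph := ⨆ i : List Bool × Bool, (p i.1 i.2).toSubgraph with hH
  have hadj : ∀ x y, H.Adj x y ↔ ∃ t b, (p t b).toSubgraph.Adj x y := by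
    intro x y
    rw [hH, SimpleGraph.Subgraph.iSup_adj]
    constructor
    · rintro ⟨⟨t, b⟩, h⟩; exact ⟨t, b, h⟩
    · rintro ⟨t, b, h⟩; exact ⟨(t, b), h⟩
  have hvert : ∀ x, x ∈ H.verts ↔ ∃ t b, x ∈ (p t b).support := by
    intro x
    rw [hH, SimpleGraph.Subgraph.verts_iSup, Set.mem_iUnion]
    constructor
    · rintro ⟨⟨t, b⟩, h⟩; exact ⟨t, b, (SimpleGraph.Walk.mem_verts_toSubgraph _).1 h⟩
    · rintro ⟨t, b, h⟩; exact ⟨(t, b), (SimpleGraph.Walk.mem_verts_toSubgraph _).2 h⟩
  have hedge : ∀ t b x y, s(x, y) ∈ (p t b).edges → H.Adj x y := by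
    intro t b x y h
    rw [hadj]
    refine ⟨t, b, ?_⟩
    rw [← SimpleGraph.Subgraph.mem_edgeSet]
    exact (SimpleGraph.Walk.mem_edges_toSubgraph _).2 h
  refine ⟨H, ?_, 1 / (2 * B * B + B + 1), by positivity, ?_⟩
  · refine Set.infinite_of_injective_forall_mem hf (fun t => ?_)
    rw [hvert]
    exact ⟨t, true, SimpleGraph.Walk.start_mem_support _⟩
  intro S _ hS
  set bd : Set (V × V) := {p : V × V | p.1 ∈ S ∧ p.2 ∉ S ∧ H.Adj p.1 p.2} with hbd
  have hbdf : bd.Finite := by
    refine Set.Finite.subset (s := ⋃ x ∈ S, ({x} : Set V) ×ˢ G.neighborSet x) ?_ ?_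
    · exact Set.Finite.biUnion (Finset.finite_toSet S)
        (fun x _ => (Set.finite_singleton x).prod (hD x).1)
    · rintro ⟨x, y⟩ ⟨h1, h2, h3⟩
      simp only [Set.mem_iUnion]
      exact ⟨x, h1, rfl, H.adj_sub h3⟩
  set T : Finset (List Bool) := (S.finite_toSet.preimage hf.injOn).toFinset with hT
  have hmT : ∀ t, t ∈ T ↔ f t ∈ S := by
    intro t; rw [hT, Set.Finite.mem_toFinset]; simp
  set bdF : Finset (V × V) := hbdf.toFinset with hbdF
  have hmb : ∀ e, e ∈ bdF ↔ e.1 ∈ S ∧ e.2 ∉ S ∧ H.Adj e.1 e.2 := by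
    intro e; rw [hbdF, Set.Finite.mem_toFinset]; rfl
  -- exits
  set E : Finset (List Bool × Bool) := (T ×ˢ Finset.univ).filter (fun e => e.1 ++ [e.2] ∉ T) with hE
  have hE1 : T.card ≤ E.card := by
    have h1 : (T ×ˢ (Finset.univ : Finset Bool)).card = T.card * 2 := by
      rw [Finset.card_product]; rfl
    have h2 := Finset.card_filter_add_card_filter_not (s := T ×ˢ (Finset.univ : Finset Bool))
      (fun e => e.1 ++ [e.2] ∉ T)
    have h3 : ((T ×ˢ (Finset.univ : Finset Bool)).filter (fun e => ¬ (e.1 ++ [e.2] ∉ T))).card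
        ≤ T.card := by
      refine Finset.card_le_card_of_injOn (fun e => e.1 ++ [e.2]) ?_ ?_
      · intro e he
        have := (Finset.mem_filter.1 he).2
        simpa using this
      · intro e _ e' _ h
        simp only at h
        have h5 := List.append_inj' h rfl
        have h6 := h5.2
        simp only [List.cons.injEq, and_true] at h6
        exact Prod.ext h5.1 h6
    rw [← hE] at h2
    omega
  have hexit : ∀ e : List Bool × Bool, e ∈ E → ∃ d : V × V, d ∈ bdF ∧ f e.1 ∈ F d.1 := by
    rintro ⟨t, b⟩ he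
    rw [hE, Finset.mem_filter, Finset.mem_product] at he
    have h1 : f t ∈ (S : Set V) := by simpa using (hmT t).1 he.1.1
    have h2 : f (t ++ [b]) ∉ (S : Set V) := by
      intro h; exact he.2 ((hmT _).2 (by simpa using h))
    obtain ⟨d, hd, hd1, hd2⟩ := (p t b).exists_boundary_dart (S : Set V) h1 h2
    refine ⟨(d.fst, d.snd), (hmb _).2 ⟨by simpa using hd1, by simpa using hd2, ?_⟩, ?_⟩
    · exact hedge t b _ _ (List.mem_map_of_mem hd : d.edge ∈ (p t b).edges)
    · have hs : d.fst ∈ (p t b).support := SimpleGraph.Walk.dart_fst_mem_support_of_mem_darts _ hd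
      refine hF d.fst (f t) ((p t b).takeUntil d.fst hs).reverse ?_
      rw [SimpleGraph.Walk.length_reverse]
      exact (SimpleGraph.Walk.length_takeUntil_le_length _ _).trans (hp t b)
  have hE2 : E.card ≤ (B * 2) * bdF.card := by
    have _ : Nonempty (V × V) := ⟨(f [], f [])⟩
    choose! g hg1 hg2 using hexit
    refine Finset.card_le_mul_card_image_of_maps_to hg1 (B * 2) (fun d _ => ?_)
    have h1 : (E.filter (fun a => g a = d)) ⊆
        ((F d.1).preimage f hf.injOn) ×ˢ (Finset.univ : Finset Bool) := by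
      intro a ha
      rw [Finset.mem_filter] at ha
      rw [Finset.mem_product, Finset.mem_preimage]
      refine ⟨?_, Finset.mem_univ _⟩
      rw [← ha.2]
      exact hg2 a ha.1
    refine (Finset.card_le_card h1).trans ?_
    rw [Finset.card_product]
    have h2 : ((F d.1).preimage f hf.injOn).card ≤ (F d.1).card :=
      Finset.card_le_card_of_injOn f (fun a ha => by simpa using ha) hf.injOn
    have h3 : (Finset.univ : Finset Bool).card = 2 := rfl
    rw [h3]
    gcongr
    exact h2.trans (hFc _)
  -- covering of S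
  have hcov : S ⊆ (T.biUnion (fun t => F (f t))) ∪ (bdF.biUnion (fun d => F d.1)) := by
    intro x hx
    obtain ⟨t, b, hxs⟩ := (hvert x).1 (hS (by simpa using hx))
    have hlen : ((p t b).takeUntil x hxs).length ≤ L :=
      (SimpleGraph.Walk.length_takeUntil_le_length _ _).trans (hp t b)
    rw [Finset.mem_union]
    by_cases ht : f t ∈ S
    · left
      exact Finset.mem_biUnion.2 ⟨t, (hmT t).2 ht, hF (f t) x _ hlen⟩
    · right
      obtain ⟨d, hd, hd1, hd2⟩ := ((p t b).takeUntil x hxs).reverse.exists_boundary_dart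
        (S : Set V) (by simpa using hx) (by simpa using ht)
      refine Finset.mem_biUnion.2 ⟨(d.fst, d.snd), (hmb _).2
        ⟨by simpa using hd1, by simpa using hd2, ?_⟩, ?_⟩
      · refine hedge t b _ _ ?_
        have h1 : d.edge ∈ ((p t b).takeUntil x hxs).reverse.edges := List.mem_map_of_mem hd
        rw [SimpleGraph.Walk.edges_reverse, List.mem_reverse] at h1
        exact SimpleGraph.Walk.edges_takeUntil_subset_edges _ _ h1
      · have hs : d.fst ∈ ((p t b).takeUntil x hxs).reverse.support :=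
          SimpleGraph.Walk.dart_fst_mem_support_of_mem_darts _ hd
        refine hF d.fst x ((((p t b).takeUntil x hxs).reverse.takeUntil d.fst hs).reverse) ?_
        rw [SimpleGraph.Walk.length_reverse]
        refine (SimpleGraph.Walk.length_takeUntil_le_length _ _).trans ?_
        rw [SimpleGraph.Walk.length_reverse]
        exact hlen
  have hcard : S.card ≤ T.card * B + bdF.card * B := by
    refine (Finset.card_le_card hcov).trans ((Finset.card_union_le _ _).trans ?_)
    exact add_le_add (Finset.card_biUnion_le_card_mul _ _ B (fun t _ => hFc _))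
      (Finset.card_biUnion_le_card_mul _ _ B (fun d _ => hFc _))
  have hfin : S.card ≤ (2 * B * B + B + 1) * bdF.card := by
    calc S.card ≤ T.card * B + bdF.card * B := hcard
      _ ≤ ((B * 2) * bdF.card) * B + bdF.card * B := by
          gcongr
          exact hE1.trans hE2
      _ ≤ _ := by nlinarith [Nat.zero_le bdF.card]
  have hnc : bd.ncard = bdF.card := Set.ncard_eq_toFinset_card _ hbdf
  rw [hnc]
  rw [div_mul_eq_mul_div, one_mul, div_le_iff₀ (by positivity), mul_comm]
  exact_mod_cast hfin

end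

end Pool.Agent.W_55e385_h22
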