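import Pool.Agent.W_55e385_h22.Path
import Pool.Agent.W_55e385_h22.Sub

set_option autoImplicit false

/-!
# From an expanding subgraph to a spreading chain
-/

namespace Pool.Agent.W_55e385_h22

open scoped ENNReal NNReal

/-- A time dependent Markov chain on the vertices of `G`: at time `n` it is on the set `A n` and
moves by the kernel `P n`, by a bounded distance; the `a`-step transition probabilities are at
most `C * ρ ^ a` with `ρ < 1`, and their column sums are at most `C`. -/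
def Spreading {V : Type} (G : SimpleGraph V) (A : ℕ → Set V) (P : ℕ → V → V → ℝ≥0∞) : Prop :=
  (∀ n x, x ∈ A n → ∑' y, P n x y = 1) ∧
  (∀ n x y, P n x y ≠ 0 → x ∈ A n ∧ y ∈ A (n + 1)) ∧
  (∃ R : ℕ, ∀ n x y, P n x y ≠ 0 → G.dist x y ≤ R) ∧
  (∃ C ρ : ℝ≥0, ρ < 1 ∧ (∀ m a x y, iter P m a x y ≤ C * (ρ : ℝ≥0∞) ^ a) ∧
    ∀ m a y, ∑' x, iter P m a x y ≤ C)

section

variable {V : Type} {G : SimpleGraph V} {D : ℕ}

open Classical in
/-- The closed neighbourhood of a finite set in `H`. -/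
noncomputable def nb (H : G.Subgraph) (hD : ∀ v, (G.neighborSet v).Finite) (S : Finset V) :
    Finset V :=
  S ∪ S.biUnion (fun x => (hD x).toFinset.filter (fun y => H.Adj x y))

theorem mem_nb (H : G.Subgraph) (hD : ∀ v, (G.neighborSet v).Finite) (S : Finset V) (y : V) :
    y ∈ nb H hD S ↔ y ∈ S ∨ ∃ x ∈ S, H.Adj x y := by
  classical
  rw [nb, Finset.mem_union, Finset.mem_biUnion]
  refine or_congr_right (exists_congr (fun x => and_congr_right (fun _ => ?_)))
  rw [Finset.mem_filter, Set.Finite.mem_toFinset]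
  exact ⟨fun h => h.2, fun h => ⟨H.adj_sub h, h⟩⟩

theorem nb_biUnion [DecidableEq V] (H : G.Subgraph) (hD : ∀ v, (G.neighborSet v).Finite)
    (S : Finset V) (k : ℕ) :
    (nb H hD)^[k] S = S.biUnion (fun x => (nb H hD)^[k] {x}) := by
  induction k with
  | zero =>
    ext y; simp
  | succ k ih =>
    rw [Function.iterate_succ_apply', ih]
    ext y
    rw [mem_nb, Finset.mem_biUnion, Finset.mem_biUnion]
    constructor
    · rintro (⟨x, hx, hy⟩ | ⟨z, hz, hzy⟩)
      · refine ⟨x, hx, ?_⟩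
        rw [Function.iterate_succ_apply', mem_nb]
        exact Or.inl hy
      · rw [Finset.mem_biUnion] at hz
        obtain ⟨x, hx, hxz⟩ := hz
        refine ⟨x, hx, ?_⟩
        rw [Function.iterate_succ_apply', mem_nb]
        exact Or.inr ⟨z, hxz, hzy⟩
    · rintro ⟨x, hx, hy⟩
      rw [Function.iterate_succ_apply', mem_nb] at hy
      rcases hy with hy | ⟨z, hz, hzy⟩
      · exact Or.inl ⟨x, hx, hy⟩
      · exact Or.inr ⟨z, Finset.mem_biUnion.2 ⟨x, hx, hz⟩, hzy⟩

theorem nb_walk (H : G.Subgraph) (hD : ∀ v, (G.neighborSet v).Finite) (x : V) (k : ℕ) (y : V)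
    (h : y ∈ (nb H hD)^[k] {x}) : (x ∈ H.verts → y ∈ H.verts) ∧ ∃ p : G.Walk x y, p.length ≤ k := by
  induction k generalizing y with
  | zero =>
    simp only [Function.iterate_zero, id_eq, Finset.mem_singleton] at h
    subst h
    exact ⟨id, SimpleGraph.Walk.nil, le_rfl⟩
  | succ k ih =>
    rw [Function.iterate_succ_apply', mem_nb] at h
    rcases h with h | ⟨z, hz, hzy⟩
    · obtain ⟨h1, p, hp⟩ := ih y h
      exact ⟨h1, p, by omega⟩
    · obtain ⟨h1, p, hp⟩ := ih z hz
      refine ⟨fun _ => H.edge_vert hzy.symm, p.concat (H.adj_sub hzy), ?_⟩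
      rw [SimpleGraph.Walk.length_concat]
      omega

theorem nb_grow (hD : ∀ v, (G.neighborSet v).Finite ∧ (G.neighborSet v).ncard ≤ D)
    (H : G.Subgraph) {ε : ℝ}
    (h : ∀ S : Finset V, S.Nonempty → (↑S : Set V) ⊆ H.verts → ε * (S.card : ℝ) ≤
          (({p : V × V | p.1 ∈ S ∧ p.2 ∉ S ∧ H.Adj p.1 p.2}.ncard : ℕ) : ℝ))
    (S : Finset V) (hS : (↑S : Set V) ⊆ H.verts) :
    (1 + ε / (D + 1)) * (S.card : ℝ) ≤ ((nb H (fun v => (hD v).1) S).card : ℝ) := by
  classical
  rcases S.eq_empty_or_nonempty with rfl | hne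
  · simp
  have h1 := h S hne hS
  set N := nb H (fun v => (hD v).1) S with hN
  have hsub : S ⊆ N := by
    intro x hx; rw [hN, mem_nb]; exact Or.inl hx
  have h2 : {p : V × V | p.1 ∈ S ∧ p.2 ∉ S ∧ H.Adj p.1 p.2} ⊆
      (((N \ S).biUnion (fun y => (hD y).1.toFinset.image (fun x => (x, y))) : Finset (V × V)) :
        Set (V × V)) := by
    rintro ⟨x, y⟩ ⟨h3, h4, h5⟩
    rw [Finset.mem_coe, Finset.mem_biUnion]
    refine ⟨y, ?_, ?_⟩
    · rw [Finset.mem_sdiff, hN, mem_nb]
      exact ⟨Or.inr ⟨x, h3, h5⟩, h4⟩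
    · rw [Finset.mem_image]
      refine ⟨x, ?_, rfl⟩
      rw [Set.Finite.mem_toFinset]
      exact (H.adj_sub h5).symm
  have h3 : {p : V × V | p.1 ∈ S ∧ p.2 ∉ S ∧ H.Adj p.1 p.2}.ncard ≤ (N \ S).card * D := by
    refine (Set.ncard_le_ncard h2 (Finset.finite_toSet _)).trans ?_
    rw [Set.ncard_coe_finset]
    refine Finset.card_biUnion_le_card_mul _ _ D (fun y _ => Finset.card_image_le.trans ?_)
    rw [← Set.ncard_eq_toFinset_card _ (hD y).1]
    exact (hD y).2
  have h4 : (N \ S).card + S.card = N.card := Finset.card_sdiff_add_card_eq_card hsub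
  have h5 : ε * (S.card : ℝ) ≤ ((N \ S).card : ℝ) * (D + 1) := by
    refine h1.trans ?_
    have h6 : (({p : V × V | p.1 ∈ S ∧ p.2 ∉ S ∧ H.Adj p.1 p.2}.ncard : ℕ) : ℝ)
        ≤ ((N \ S).card : ℝ) * D := by exact_mod_cast h3
    nlinarith [Nat.cast_nonneg (α := ℝ) (N \ S).card]
  have h6 : (N.card : ℝ) = ((N \ S).card : ℝ) + S.card := by exact_mod_cast h4.symm
  rw [h6, add_mul, one_mul, add_comm]
  gcongr
  rw [div_mul_eq_mul_div, div_le_iff₀ (by positivity)]
  exact h5

/-- Two children for every vertex, all different. -/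
theorem children (hD : ∀ v, (G.neighborSet v).Finite ∧ (G.neighborSet v).ncard ≤ D)
    (H : G.Subgraph) {ε : ℝ} (hε : 0 < ε)
    (h : ∀ S : Finset V, S.Nonempty → (↑S : Set V) ⊆ H.verts → ε * (S.card : ℝ) ≤
          (({p : V × V | p.1 ∈ S ∧ p.2 ∉ S ∧ H.Adj p.1 p.2}.ncard : ℕ) : ℝ)) :
    ∃ (k : ℕ) (g : H.verts × Bool → V), Function.Injective g ∧ ∀ e, g e ∈ H.verts ∧
      ∃ p : G.Walk (e.1 : V) (g e), p.length ≤ k := by
  classical
  set hf : ∀ v, (G.neighborSet v).Finite := fun v => (hD v).1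
  have hδ : (1 : ℝ) < 1 + ε / (D + 1) := by
    have : 0 < ε / ((D : ℝ) + 1) := by positivity
    linarith
  obtain ⟨k, hk⟩ := pow_unbounded_of_one_lt 2 hδ
  have hgrow : ∀ (k : ℕ) (S : Finset V), (↑S : Set V) ⊆ H.verts →
      (↑((nb H hf)^[k] S) : Set V) ⊆ H.verts ∧
      (1 + ε / (D + 1)) ^ k * (S.card : ℝ) ≤ (((nb H hf)^[k] S).card : ℝ) := by
    intro k S hS
    induction k with
    | zero => exact ⟨hS, by simp⟩
    | succ k ih =>
      rw [Function.iterate_succ_apply']
      refine ⟨?_, ?_⟩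
      · intro y hy
        rw [Finset.mem_coe, mem_nb] at hy
        rcases hy with hy | ⟨x, -, hxy⟩
        · exact ih.1 (by simpa using hy)
        · exact H.edge_vert hxy.symm
      · calc (1 + ε / (D + 1)) ^ (k + 1) * (S.card : ℝ)
            = (1 + ε / (D + 1)) * ((1 + ε / (D + 1)) ^ k * (S.card : ℝ)) := by ring
          _ ≤ (1 + ε / (D + 1)) * (((nb H hf)^[k] S).card : ℝ) := by
              gcongr
              exact ih.2
          _ ≤ _ := nb_grow hD H h _ ih.1
  have hall := (Finset.all_card_le_biUnion_card_iff_exists_injective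
    (fun e : H.verts × Bool => (nb H hf)^[k] {(e.1 : V)})).1 ?_
  · obtain ⟨g, hg, hg'⟩ := hall
    exact ⟨k, g, hg, fun e => ⟨(nb_walk H hf e.1 k _ (hg' e)).1 e.1.2,
      (nb_walk H hf e.1 k _ (hg' e)).2⟩⟩
  · intro s
    set S : Finset V := s.image (fun e => (e.1 : V)) with hSd
    have h1 : s.biUnion (fun e : H.verts × Bool => (nb H hf)^[k] {(e.1 : V)})
        = (nb H hf)^[k] S := by
      rw [nb_biUnion H hf S k, hSd]
      ext y
      simp only [Finset.mem_biUnion, Finset.mem_image]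
      constructor
      · rintro ⟨e, he, hy⟩; exact ⟨e.1, ⟨e, he, rfl⟩, hy⟩
      · rintro ⟨x, ⟨e, he, rfl⟩, hy⟩; exact ⟨e, he, hy⟩
    rw [h1]
    have h2 : s.card ≤ 2 * S.card := by
      refine Finset.card_le_mul_card_image s 2 (fun x _ => ?_)
      have h3 : (s.filter (fun e => (e.1 : V) = x)).card ≤ (Finset.univ : Finset Bool).card := by
        refine Finset.card_le_card_of_injOn Prod.snd (fun _ _ => Finset.mem_coe.2 (Finset.mem_univ _)) ?_
        intro e he e' he' hee
        rw [Finset.mem_coe, Finset.mem_filter] at he he'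
        exact Prod.ext (Subtype.ext (he.2.trans he'.2.symm)) hee
      exact h3
    have h3 := (hgrow k S (by
      intro x hx
      rw [hSd, Finset.mem_coe, Finset.mem_image] at hx
      obtain ⟨e, -, rfl⟩ := hx
      exact e.1.2)).2
    have h4 : (2 : ℝ) * (S.card : ℝ) ≤ (((nb H hf)^[k] S).card : ℝ) := by
      refine le_trans ?_ h3
      gcongr
    have h5 : (s.card : ℝ) ≤ 2 * (S.card : ℝ) := by exact_mod_cast h2
    exact_mod_cast h5.trans h4

open Classical in
/-- The chain that moves to one of the two children. -/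
noncomputable def kid (H : G.Subgraph) (g : H.verts × Bool → V) (x y : V) : ℝ≥0∞ :=
  if h : x ∈ H.verts then
    (if g (⟨x, h⟩, true) = y then 2⁻¹ else 0) + (if g (⟨x, h⟩, false) = y then 2⁻¹ else 0)
  else 0

theorem kid_row (H : G.Subgraph) (g : H.verts × Bool → V) (x : V) (hx : x ∈ H.verts) :
    ∑' y, kid H g x y = 1 := by
  classical
  simp only [kid, dif_pos hx]
  rw [ENNReal.tsum_add, tsum_ite_eq', tsum_ite_eq', ENNReal.inv_two_add_inv_two]

theorem kid_pos (H : G.Subgraph) (g : H.verts × Bool → V) (x y : V) (h : kid H g x y ≠ 0) :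
    ∃ (hx : x ∈ H.verts) (b : Bool), g (⟨x, hx⟩, b) = y := by
  classical
  by_cases hx : x ∈ H.verts
  · refine ⟨hx, ?_⟩
    by_contra hno
    push Not at hno
    rw [kid, dif_pos hx, if_neg (hno true), if_neg (hno false)] at h
    simp at h
  · rw [kid, dif_neg hx] at h
    exact absurd rfl h

theorem kid_col (H : G.Subgraph) (g : H.verts × Bool → V) (hg : Function.Injective g) (y : V) :
    ∑' x, kid H g x y ≤ 2⁻¹ := by
  classical
  by_cases hy : ∃ x, kid H g x y ≠ 0
  · obtain ⟨x, hx⟩ := hy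
    obtain ⟨hxm, b, hb⟩ := kid_pos H g x y hx
    rw [tsum_eq_single x]
    · rw [kid, dif_pos hxm]
      cases b with
      | true =>
        have h1 : g (⟨x, hxm⟩, false) ≠ y := by
          intro h
          have := hg (h.trans hb.symm)
          simp at this
        rw [if_pos hb, if_neg h1, add_zero]
      | false =>
        have h1 : g (⟨x, hxm⟩, true) ≠ y := by
          intro h
          have := hg (h.trans hb.symm)
          simp at this
        rw [if_neg h1, if_pos hb, zero_add]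
    · intro x' hx'
      by_contra hno
      obtain ⟨hxm', b', hb'⟩ := kid_pos H g x' y hno
      have := hg (hb'.trans hb.symm)
      simp only [Prod.mk.injEq, Subtype.mk.injEq] at this
      exact hx' this.1
  · push Not at hy
    simp [hy]

theorem kid_iter_col (H : G.Subgraph) (g : H.verts × Bool → V) (hg : Function.Injective g)
    (m a : ℕ) (y : V) : ∑' x, iter (fun _ => kid H g) m a x y ≤ (2⁻¹ : ℝ≥0∞) ^ a := by
  induction a generalizing m y with
  | zero =>
    simp only [iter, pow_zero]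
    rw [tsum_eq_single y (fun x hx => if_neg hx), if_pos rfl]
  | succ a ih =>
    simp only [iter]
    rw [ENNReal.tsum_comm]
    calc ∑' z, ∑' x, kid H g x z * iter (fun _ => kid H g) (m + 1) a z y
        = ∑' z, (∑' x, kid H g x z) * iter (fun _ => kid H g) (m + 1) a z y := by
          simp only [ENNReal.tsum_mul_right]
      _ ≤ ∑' z, 2⁻¹ * iter (fun _ => kid H g) (m + 1) a z y := by
          gcongr with z
          exact kid_col H g hg z
      _ = 2⁻¹ * ∑' z, iter (fun _ => kid H g) (m + 1) a z y := by rw [ENNReal.tsum_mul_left]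
      _ ≤ 2⁻¹ * (2⁻¹ : ℝ≥0∞) ^ a := by gcongr; exact ih (m + 1) y
      _ = _ := by rw [pow_succ, mul_comm]

/-- An expanding subgraph carries a homogeneous spreading chain. -/
theorem chain_of_subgraph (hD : ∀ v, (G.neighborSet v).Finite ∧ (G.neighborSet v).ncard ≤ D)
    (h : HasExpandingSubgraph G) :
    ∃ (A : Set V) (P : V → V → ℝ≥0∞), A.Nonempty ∧ Spreading G (fun _ => A) (fun _ => P) := by
  obtain ⟨H, hinf, ε, hε, hS⟩ := h
  obtain ⟨k, g, hg, hg'⟩ := children hD H hε hS
  refine ⟨H.verts, kid H g, hinf.nonempty, fun _ x hx => kid_row H g x hx, ?_, ⟨k, ?_⟩,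
    1, 2⁻¹, ?_, ?_, ?_⟩
  · intro _ x y hxy
    obtain ⟨hx, b, rfl⟩ := kid_pos H g x y hxy
    exact ⟨hx, (hg' _).1⟩
  · intro _ x y hxy
    obtain ⟨hx, b, rfl⟩ := kid_pos H g x y hxy
    obtain ⟨-, p, hp⟩ := hg' (⟨x, hx⟩, b)
    exact (SimpleGraph.dist_le p).trans hp
  · exact inv_lt_one_of_one_lt₀ (by norm_num)
  · intro m a x y
    refine (ENNReal.le_tsum x).trans ((kid_iter_col H g hg m a y).trans (le_of_eq ?_))
    rw [ENNReal.coe_one, one_mul, ENNReal.coe_inv (by norm_num)]
    rfl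
  · intro m a y
    refine (kid_iter_col H g hg m a y).trans ?_
    rw [ENNReal.coe_one]
    exact pow_le_one' (ENNReal.inv_le_one.2 (by norm_num)) a

end

end Pool.Agent.W_55e385_h22
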