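import Pool.Agent.W_55e385_h22.Fin
import Pool.Agent.W_55e385_h22.Hall

set_option autoImplicit false

/-!
# From an expanding subgraph to an unpredictable process
-/

namespace Pool.Agent.W_55e385_h22

open scoped ENNReal NNReal
open MeasureTheory

section

variable {W : Type}

/-- The position after following the coin tosses `ω`. -/
def pos (nxt : W × Bool → W) (o : W) (ω : ℕ → Bool) : ℕ → W
  | 0 => o
  | n + 1 => nxt (pos nxt o ω n, ω n)

variable {nxt : W × Bool → W} {o : W}

theorem pos_congr {n : ℕ} {ω ω' : ℕ → Bool} (h : ∀ i < n, ω i = ω' i) :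
    pos nxt o ω n = pos nxt o ω' n := by
  induction n with
  | zero => rfl
  | succ n ih => rw [pos, pos, ih (fun i hi => h i (by omega)), h n (by omega)]

theorem pos_inj (hn : Function.Injective nxt) {n : ℕ} {ω ω' : ℕ → Bool}
    (h : pos nxt o ω n = pos nxt o ω' n) : ∀ i < n, ω i = ω' i := by
  induction n with
  | zero => intro i hi; omega
  | succ n ih =>
    have h1 := hn h
    rw [Prod.mk.injEq] at h1
    intro i hi
    rcases Nat.lt_or_ge i n with h2 | h2
    · exact ih h1.1 i h2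
    · rw [show i = n by omega]
      exact h1.2

theorem pos_meas (hn : Function.Injective nxt) (n : ℕ) (w : W) :
    MeasurableSet {ω | pos nxt o ω n = w} := by
  induction n generalizing w with
  | zero => exact MeasurableSet.const (o = w)
  | succ n ih =>
    by_cases he : ∃ e, nxt e = w
    · obtain ⟨⟨v, b⟩, rfl⟩ := he
      have : {ω : ℕ → Bool | pos nxt o ω (n + 1) = nxt (v, b)} =
          {ω | pos nxt o ω n = v} ∩ {ω | ω n = b} := by
        ext ω
        change nxt (pos nxt o ω n, ω n) = nxt (v, b) ↔ pos nxt o ω n = v ∧ ω n = b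
        rw [hn.eq_iff, Prod.mk.injEq]
      rw [this]
      refine (ih v).inter ?_
      have hmn : Measurable (fun ω : ℕ → Bool => ω n) := measurable_pi_apply n
      exact hmn (MeasurableSet.singleton b)
    · have : {ω : ℕ → Bool | pos nxt o ω (n + 1) = w} = ∅ := by
        ext ω
        change nxt (pos nxt o ω n, ω n) = w ↔ False
        exact ⟨fun h => he ⟨_, h⟩, False.elim⟩
      rw [this]
      exact MeasurableSet.empty

/-- Independent fair coins. -/
noncomputable def coins : Measure (ℕ → Bool) :=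
  Measure.infinitePi (fun _ => (PMF.uniformOfFintype Bool).toMeasure)

instance : IsProbabilityMeasure coins := by
  unfold coins
  infer_instance

theorem coins_cyl (n : ℕ) (w : ℕ → Bool) :
    coins {ω | ∀ i < n, ω i = w i} = (2 : ℝ≥0∞)⁻¹ ^ n := by
  have h1 : {ω : ℕ → Bool | ∀ i < n, ω i = w i} =
      Set.pi (Finset.range n : Finset ℕ) (fun i => {w i}) := by
    ext ω
    simp [Set.mem_pi]
  rw [h1, coins, Measure.infinitePi_pi _ (fun i _ => MeasurableSet.singleton _)]
  have h2 : ∀ i, (PMF.uniformOfFintype Bool).toMeasure {w i} = (2 : ℝ≥0∞)⁻¹ := by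
    intro i
    rw [PMF.toMeasure_apply_singleton _ _ (MeasurableSet.singleton _)]
    simp
  simp [h2]

end

section

variable {V : Type} {G : SimpleGraph V} {D : ℕ}

/-- An expanding subgraph carries an unpredictable process. -/
theorem process_of_subgraph
    (hD : ∀ v, (G.neighborSet v).Finite ∧ (G.neighborSet v).ncard ≤ D)
    (h : HasExpandingSubgraph G) :
    ∃ (R : ℕ) (C ρ : ℝ≥0), ρ < 1 ∧ ∃ (Ω : Type) (_ : MeasurableSpace Ω) (μ : Measure Ω)
      (X : ℕ → Ω → V), IsProbabilityMeasure μ ∧ ∀ N, Unpredictable G R C ρ N μ X := by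
  classical
  obtain ⟨H, hinf, ε, hε, hS⟩ := h
  obtain ⟨k, g, hg, hg'⟩ := children hD H hε hS
  obtain ⟨o, ho⟩ := hinf.nonempty
  set nxt : H.verts × Bool → H.verts := fun e => ⟨g e, (hg' e).1⟩ with hnxt
  have hn : Function.Injective nxt := by
    intro e e' hee
    exact hg (congrArg Subtype.val hee)
  set X : ℕ → (ℕ → Bool) → V := fun n ω => Subtype.val (pos nxt ⟨o, ho⟩ ω n) with hX
  refine ⟨k, 1, 2⁻¹, inv_lt_one_of_one_lt₀ (by norm_num), ℕ → Bool, inferInstance, coins, X,
    inferInstance, fun N => ⟨?_, ?_, ?_⟩⟩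
  · intro n y
    by_cases hy : y ∈ H.verts
    · have : {ω | X n ω = y} = {ω | pos nxt ⟨o, ho⟩ ω n = ⟨y, hy⟩} := by
        ext ω
        change Subtype.val (pos nxt ⟨o, ho⟩ ω n) = y ↔ pos nxt ⟨o, ho⟩ ω n = ⟨y, hy⟩
        exact ⟨fun h => Subtype.ext h, fun h => congrArg Subtype.val h⟩
      rw [this]
      exact pos_meas hn n _
    · have : {ω | X n ω = y} = ∅ := by
        ext ω
        change X n ω = y ↔ False
        refine ⟨fun h => hy ?_, False.elim⟩
        rw [← h]
        exact (pos nxt ⟨o, ho⟩ ω n).2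
      rw [this]
      exact MeasurableSet.empty
  · intro n _
    refine ae_of_all _ (fun ω => ?_)
    obtain ⟨-, p, hp⟩ := hg' (pos nxt ⟨o, ho⟩ ω n, ω n)
    change G.dist (pos nxt ⟨o, ho⟩ ω n).1 (g (pos nxt ⟨o, ho⟩ ω n, ω n)) ≤ k
    exact (SimpleGraph.dist_le p).trans hp
  · intro m a _ x y
    rcases Set.eq_empty_or_nonempty {ω | (∀ i ≤ m, X i ω = x i) ∧ X (m + a) ω = y} with
      he | ⟨w, hw1, hw2⟩
    · rw [he, measure_empty]
      exact zero_le
    · have h1 : {ω | (∀ i ≤ m, X i ω = x i) ∧ X (m + a) ω = y} ⊆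
          {ω | ∀ i < m + a, ω i = w i} := by
        rintro ω ⟨-, hω⟩
        have h3 : Subtype.val (pos nxt ⟨o, ho⟩ ω (m + a)) =
          Subtype.val (pos nxt ⟨o, ho⟩ w (m + a)) := hω.trans hw2.symm
        exact pos_inj hn (Subtype.ext h3)
      have h2 : {ω : ℕ → Bool | ∀ i < m, ω i = w i} ⊆ {ω | ∀ i ≤ m, X i ω = x i} := by
        intro ω hω i hi
        rw [← hw1 i hi]
        change Subtype.val (pos nxt ⟨o, ho⟩ ω i) = Subtype.val (pos nxt ⟨o, ho⟩ w i)
        rw [pos_congr (fun j hj => hω j (by omega))]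
      have hh : ((2⁻¹ : ℝ≥0) : ℝ≥0∞) = (2 : ℝ≥0∞)⁻¹ := by
        rw [ENNReal.coe_inv (by norm_num)]; rfl
      calc coins {ω | (∀ i ≤ m, X i ω = x i) ∧ X (m + a) ω = y}
          ≤ coins {ω | ∀ i < m + a, ω i = w i} := measure_mono h1
        _ = (2 : ℝ≥0∞)⁻¹ ^ a * (2 : ℝ≥0∞)⁻¹ ^ m := by rw [coins_cyl, pow_add, mul_comm]
        _ = (2 : ℝ≥0∞)⁻¹ ^ a * coins {ω | ∀ i < m, ω i = w i} := by rw [coins_cyl]
        _ ≤ (2 : ℝ≥0∞)⁻¹ ^ a * coins {ω | ∀ i ≤ m, X i ω = x i} :=
            mul_le_mul' le_rfl (measure_mono h2)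
        _ = _ := by rw [ENNReal.coe_one, one_mul, hh]

end

end Pool.Agent.W_55e385_h22
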