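import Mathlib

set_option autoImplicit false

/-!
# Random injective trees inside a process with small collision probabilities
-/

namespace Pool.Agent.W_55e385_h22

open scoped ENNReal NNReal

section

variable {α : Type}

/-- Two independent samples. -/
noncomputable def two (U : PMF α) : PMF (α × α) := U.bind fun x => U.map fun y => (x, y)

theorem two_rect (U : PMF α) (A B : Set α) :
    (two U).toOuterMeasure (A ×ˢ B) = U.toOuterMeasure A * U.toOuterMeasure B := by
  classical
  rw [two, PMF.toOuterMeasure_bind_apply]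
  have h : ∀ x, U x * (U.map fun y => (x, y)).toOuterMeasure (A ×ˢ B) =
      A.indicator U x * U.toOuterMeasure B := by
    intro x
    rw [PMF.toOuterMeasure_map_apply]
    by_cases hx : x ∈ A
    · have : (fun y => (x, y)) ⁻¹' (A ×ˢ B) = B := by
        ext y; simp [hx]
      rw [this, Set.indicator_of_mem hx]
    · have : (fun y => (x, y)) ⁻¹' (A ×ˢ B) = ∅ := by
        ext y; simp [hx]
      rw [this, Set.indicator_of_notMem hx]
      simp
  simp_rw [h]
  rw [ENNReal.tsum_mul_right, ← PMF.toOuterMeasure_apply]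

theorem outer_univ (p : PMF α) : p.toOuterMeasure Set.univ = 1 := by
  rw [PMF.toOuterMeasure_apply]
  simp [p.tsum_coe]

theorem half_le (p : PMF α) (G : Set α) (h : p.toOuterMeasure Gᶜ ≤ 2⁻¹) :
    2⁻¹ ≤ p.toOuterMeasure G := by
  have h1 : (1 : ℝ≥0∞) ≤ p.toOuterMeasure G + p.toOuterMeasure Gᶜ := by
    rw [← outer_univ p, ← Set.union_compl_self G]
    exact MeasureTheory.measure_union_le _ _
  have h2 : (1 : ℝ≥0∞) ≤ p.toOuterMeasure G + 2⁻¹ := h1.trans (by gcongr)
  rw [← ENNReal.inv_two_add_inv_two] at h2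
  exact (ENNReal.add_le_add_iff_right (by simp)).1 h2

theorem exists_good (p : PMF α) (G : Set α) (h : 2⁻¹ ≤ p.toOuterMeasure G) :
    ∃ a ∈ G, a ∈ p.support := by
  by_contra hne
  push Not at hne
  have : p.toOuterMeasure G = 0 := by
    rw [PMF.toOuterMeasure_apply_eq_zero_iff, Set.disjoint_left]
    exact fun a ha hG => hne a hG ha
  rw [this] at h
  simp at h

theorem filter_le (p : PMF α) (G : Set α) (h : ∃ a ∈ G, a ∈ p.support)
    (hG : 2⁻¹ ≤ p.toOuterMeasure G) (E : Set α) :
    (p.filter G h).toOuterMeasure E ≤ 2 * p.toOuterMeasure E := by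
  classical
  rw [PMF.toOuterMeasure_apply, PMF.toOuterMeasure_apply, ← ENNReal.tsum_mul_left]
  refine ENNReal.tsum_le_tsum (fun x => ?_)
  by_cases hx : x ∈ E
  · rw [Set.indicator_of_mem hx, Set.indicator_of_mem hx, PMF.filter_apply, mul_comm,
      ← PMF.toOuterMeasure_apply]
    gcongr
    · rw [ENNReal.inv_le_iff_inv_le]
      exact hG
    · exact Set.indicator_le_self' (fun _ _ => zero_le) x
  · rw [Set.indicator_of_notMem hx]
    exact zero_le

end

section

variable {S V : Type}

/-- The labelled tree with root `s` and the two subtrees `f`. -/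
def node (s : S) (f : Bool → List Bool → S) : List Bool → S
  | [] => s
  | b :: t => f b t

/-- Some vertex at depth `a` has label `z`. -/
def lev (π : S → V) (a : ℕ) (z : V) : Set (List Bool → S) :=
  {f | ∃ t : List Bool, t.length = a ∧ π (f t) = z}

/-- Some vertex at depth at most `n` has label `z`. -/
def hit (π : S → V) (n : ℕ) (z : V) : Set (List Bool → S) :=
  {f | ∃ t : List Bool, t.length ≤ n ∧ π (f t) = z}

/-- A tree of depth `n`, rooted at `s` at time `k`, moving by `K`, with distinct labels. -/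
structure IsTree (π : S → V) (K : ℕ → S → S → ℝ≥0∞) (n k : ℕ) (s : S) (f : List Bool → S) :
    Prop where
  root : f [] = s
  step : ∀ t b, t.length < n → K (k + t.length) (f t) (f (t ++ [b])) ≠ 0
  inj : ∀ t t', t.length ≤ n → t'.length ≤ n → π (f t) = π (f t') → t = t'

/-- The hypotheses: a time dependent chain `K` on `S`, projected to `V` by `π`, with laws `L`. -/
structure Sys (π : S → V) (K : ℕ → S → S → ℝ≥0∞) (L : ℕ → S → ℕ → V → ℝ≥0∞)
    (Ok : ℕ → ℕ → S → Prop) : Prop where
  row : ∀ n k s, Ok (n + 1) k s → HasSum (K k s) 1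
  next : ∀ n k s s', Ok (n + 1) k s → K k s s' ≠ 0 → Ok n (k + 1) s'
  zero : ∀ n k s, Ok n k s → 1 ≤ L k s 0 (π s)
  succ : ∀ n k s a z, Ok (n + 1) k s → a ≤ n →
    ∑' s', K k s s' * L (k + 1) s' a z ≤ L k s (a + 1) z
  tot : ∀ n k s a, Ok n k s → a ≤ n → ∑' z, L k s a z ≤ 1
  dec : ∀ n k s a z, Ok n k s → a ≤ n → L k s a z ≤ ((8 : ℝ≥0∞)⁻¹ ^ a) ^ 2

variable {π : S → V} {K : ℕ → S → S → ℝ≥0∞} {L : ℕ → S → ℕ → V → ℝ≥0∞}
  {Ok : ℕ → ℕ → S → Prop}

theorem hit_eq (n : ℕ) (z : V) : hit π n z = ⋃ a ∈ Finset.range (n + 1), lev π a z := by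
  ext f
  simp only [hit, lev, Set.mem_ofPred_eq, Set.mem_iUnion, Finset.mem_range, exists_prop]
  constructor
  · rintro ⟨t, ht, hz⟩
    exact ⟨t.length, by omega, t, rfl, hz⟩
  · rintro ⟨a, ha, t, rfl, hz⟩
    exact ⟨t, by omega, hz⟩

theorem hit_le (U : PMF (List Bool → S)) (n : ℕ) (z : V) :
    U.toOuterMeasure (hit π n z) ≤ ∑ a ∈ Finset.range (n + 1), U.toOuterMeasure (lev π a z) := by
  rw [hit_eq]
  exact MeasureTheory.measure_biUnion_finset_le _ _

/-- Pairs of trees which do not fit together under the root label `r`. -/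
def clash (π : S → V) (n : ℕ) (r : V) : Set ((List Bool → S) × (List Bool → S)) :=
  (⋃ z, hit π n z ×ˢ hit π n z) ∪ (hit π n r ×ˢ Set.univ ∪ Set.univ ×ˢ hit π n r)

theorem clash_le [Countable V] (U : PMF (List Bool → S)) (n : ℕ) (r : V) :
    (two U).toOuterMeasure (clash π n r) ≤
      ∑' z, U.toOuterMeasure (hit π n z) ^ 2 + 2 * U.toOuterMeasure (hit π n r) := by
  refine (MeasureTheory.measure_union_le _ _).trans ?_
  gcongr
  · refine (MeasureTheory.measure_iUnion_le _).trans ?_
    refine ENNReal.tsum_le_tsum (fun z => ?_)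
    rw [two_rect, sq]
  · refine (MeasureTheory.measure_union_le _ _).trans ?_
    rw [two_rect, two_rect, outer_univ, mul_one, one_mul, two_mul]

/-- The geometric sum bound. -/
theorem geo_le (n : ℕ) : ∑ a ∈ Finset.range (n + 1), (2 : ℝ≥0∞)⁻¹ ^ a ≤ 2 := by
  refine (ENNReal.sum_le_tsum _).trans ?_
  rw [ENNReal.tsum_geometric, ENNReal.one_sub_inv_two, inv_inv]

theorem four_eight (a : ℕ) : (4 : ℝ≥0∞) ^ a * 8⁻¹ ^ a = 2⁻¹ ^ a := by
  rw [← mul_pow]
  congr 1
  rw [show (8 : ℝ≥0∞) = 4 * 2 by norm_num, ENNReal.mul_inv (by simp) (by simp), ← mul_assoc,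
    ENNReal.mul_inv_cancel (by simp) (by simp), one_mul]

theorem eight_le : (8 : ℝ≥0∞)⁻¹ ≤ 1 := by
  rw [ENNReal.inv_le_one]
  norm_num

/-- Two laws with small maxima have a small collision probability. -/
theorem coll (p q : V → ℝ≥0∞) (a b : ℕ) (hp : ∀ z, p z ≤ ((8 : ℝ≥0∞)⁻¹ ^ a) ^ 2)
    (hq : ∀ z, q z ≤ ((8 : ℝ≥0∞)⁻¹ ^ b) ^ 2) (hp1 : ∑' z, p z ≤ 1) (hq1 : ∑' z, q z ≤ 1) :
    ∑' z, p z * q z ≤ 8⁻¹ ^ a * 8⁻¹ ^ b := by
  rcases le_total a b with hab | hab
  · calc ∑' z, p z * q z ≤ ∑' z, p z * (8⁻¹ ^ a * 8⁻¹ ^ b) := by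
          refine ENNReal.tsum_le_tsum (fun z => ?_)
          gcongr
          refine (hq z).trans ?_
          rw [sq]
          gcongr ?_ * _
          exact pow_le_pow_right_of_le_one' eight_le hab
      _ = (∑' z, p z) * (8⁻¹ ^ a * 8⁻¹ ^ b) := ENNReal.tsum_mul_right
      _ ≤ 1 * (8⁻¹ ^ a * 8⁻¹ ^ b) := by gcongr
      _ = _ := one_mul _
  · calc ∑' z, p z * q z ≤ ∑' z, (8⁻¹ ^ a * 8⁻¹ ^ b) * q z := by
          refine ENNReal.tsum_le_tsum (fun z => ?_)
          gcongr
          refine (hp z).trans ?_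
          rw [sq]
          gcongr _ * ?_
          exact pow_le_pow_right_of_le_one' eight_le hab
      _ = (8⁻¹ ^ a * 8⁻¹ ^ b) * (∑' z, q z) := ENNReal.tsum_mul_left
      _ ≤ (8⁻¹ ^ a * 8⁻¹ ^ b) * 1 := by gcongr
      _ = _ := mul_one _

/-- The total collision estimate. -/
theorem clash_half (n : ℕ) (M : V → ℝ≥0∞) (l : ℕ → V → ℝ≥0∞) (r : V)
    (hM : ∀ z, M z ≤ ∑ a ∈ Finset.range (n + 1), 4 ^ a * l a z)
    (hdec : ∀ a ≤ n, ∀ z, l a z ≤ ((8 : ℝ≥0∞)⁻¹ ^ (a + 1)) ^ 2)
    (htot : ∀ a ≤ n, ∑' z, l a z ≤ 1) :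
    ∑' z, M z ^ 2 + 2 * M r ≤ 2⁻¹ := by
  have h1 : ∑' z, M z ^ 2 ≤ (8⁻¹ * 2) ^ 2 := by
    calc ∑' z, M z ^ 2
        ≤ ∑' z, ∑ a ∈ Finset.range (n + 1), ∑ b ∈ Finset.range (n + 1),
            (4 ^ a * 4 ^ b) * (l a z * l b z) := by
          refine ENNReal.tsum_le_tsum (fun z => ?_)
          rw [sq]
          refine (mul_le_mul' (hM z) (hM z)).trans ?_
          rw [Finset.sum_mul_sum]
          refine le_of_eq (Finset.sum_congr rfl (fun a _ => Finset.sum_congr rfl (fun b _ => ?_)))
          ring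
      _ = ∑ a ∈ Finset.range (n + 1), ∑ b ∈ Finset.range (n + 1),
            (4 ^ a * 4 ^ b) * ∑' z, (l a z * l b z) := by
          rw [Summable.tsum_finsetSum (fun _ _ => ENNReal.summable)]
          refine Finset.sum_congr rfl (fun a _ => ?_)
          rw [Summable.tsum_finsetSum (fun _ _ => ENNReal.summable)]
          refine Finset.sum_congr rfl (fun b _ => ?_)
          rw [ENNReal.tsum_mul_left]
      _ ≤ ∑ a ∈ Finset.range (n + 1), ∑ b ∈ Finset.range (n + 1),
            (8⁻¹ * 2⁻¹ ^ a) * (8⁻¹ * 2⁻¹ ^ b) := by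
          refine Finset.sum_le_sum (fun a ha => Finset.sum_le_sum (fun b hb => ?_))
          rw [Finset.mem_range] at ha hb
          have h2 := coll (l a) (l b) (a + 1) (b + 1) (hdec a (by omega)) (hdec b (by omega))
            (htot a (by omega)) (htot b (by omega))
          calc (4 ^ a * 4 ^ b) * ∑' z, (l a z * l b z)
              ≤ (4 ^ a * 4 ^ b) * (8⁻¹ ^ (a + 1) * 8⁻¹ ^ (b + 1)) := by gcongr
            _ = (8⁻¹ * (4 ^ a * 8⁻¹ ^ a)) * (8⁻¹ * (4 ^ b * 8⁻¹ ^ b)) := by ring
            _ = _ := by rw [four_eight, four_eight]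
      _ = (8⁻¹ * ∑ a ∈ Finset.range (n + 1), (2 : ℝ≥0∞)⁻¹ ^ a) ^ 2 := by
          rw [← Finset.sum_mul_sum, ← Finset.mul_sum, sq]
      _ ≤ _ := by
          gcongr
          exact geo_le n
  have h3 : ∀ a : ℕ, ((8 : ℝ≥0∞)⁻¹ ^ (a + 1)) ^ 2 ≤ 8⁻¹ ^ (a + 1) * 8⁻¹ := by
    intro a
    rw [sq]
    refine mul_le_mul' le_rfl ?_
    calc (8 : ℝ≥0∞)⁻¹ ^ (a + 1) ≤ 8⁻¹ ^ 1 :=
          pow_le_pow_right_of_le_one' eight_le (by omega)
      _ = _ := pow_one _
  have h2 : M r ≤ (8⁻¹ * 8⁻¹) * 2 := by
    refine (hM r).trans ?_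
    calc ∑ a ∈ Finset.range (n + 1), 4 ^ a * l a r
        ≤ ∑ a ∈ Finset.range (n + 1), (8⁻¹ * 8⁻¹) * 2⁻¹ ^ a := by
          refine Finset.sum_le_sum (fun a ha => ?_)
          rw [Finset.mem_range] at ha
          calc 4 ^ a * l a r ≤ 4 ^ a * (8⁻¹ ^ (a + 1) * 8⁻¹) :=
                mul_le_mul' le_rfl ((hdec a (by omega) r).trans (h3 a))
            _ = (8⁻¹ * 8⁻¹) * (4 ^ a * 8⁻¹ ^ a) := by ring
            _ = _ := by rw [four_eight]
      _ = (8⁻¹ * 8⁻¹) * ∑ a ∈ Finset.range (n + 1), (2 : ℝ≥0∞)⁻¹ ^ a := by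
          rw [Finset.mul_sum]
      _ ≤ _ := mul_le_mul' le_rfl (geo_le n)
  refine (add_le_add h1 (mul_le_mul' le_rfl h2)).trans ?_
  have h8 : (8 : ℝ≥0∞)⁻¹ = ((8⁻¹ : ℝ≥0) : ℝ≥0∞) := by
    rw [ENNReal.coe_inv (by norm_num)]; rfl
  have h22 : (2 : ℝ≥0∞)⁻¹ = ((2⁻¹ : ℝ≥0) : ℝ≥0∞) := by
    rw [ENNReal.coe_inv (by norm_num)]; rfl
  rw [h8, h22]
  have h4 : (8⁻¹ * 2) ^ 2 + 2 * ((8⁻¹ * 8⁻¹) * 2) ≤ (2⁻¹ : ℝ≥0) := by
    rw [← NNReal.coe_le_coe]
    push_cast
    norm_num
  exact_mod_cast h4

theorem core [Countable V] (h : Sys π K L Ok) (n : ℕ) : ∀ k s, Ok n k s →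
    ∃ T : PMF (List Bool → S), (∀ f ∈ T.support, IsTree π K n k s f) ∧
      ∀ a ≤ n, ∀ z, T.toOuterMeasure (lev π a z) ≤ 4 ^ a * L k s a z := by
  classical
  induction n with
  | zero =>
    intro k s hs
    refine ⟨PMF.pure (fun _ => s), ?_, ?_⟩
    · intro f hf
      rw [PMF.mem_support_pure_iff] at hf
      subst hf
      refine ⟨rfl, fun t b ht => absurd ht (by omega), fun t t' ht ht' _ => ?_⟩
      rw [List.length_eq_zero_iff.1 (by omega : t.length = 0),
        List.length_eq_zero_iff.1 (by omega : t'.length = 0)]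
    · intro a ha z
      have ha0 : a = 0 := by omega
      subst ha0
      rw [PMF.toOuterMeasure_pure_apply]
      split_ifs with hz
      · obtain ⟨t, _, hz⟩ := hz
        simp only at hz
        subst hz
        rw [pow_zero, one_mul]
        exact h.zero _ _ _ hs
      · exact zero_le
  | succ n ih =>
    intro k s hs
    choose T hT hTl using ih
    set q : PMF S := ⟨K k s, h.row _ _ _ hs⟩ with hq
    have hqs : ∀ s' ∈ q.support, Ok n (k + 1) s' := fun s' hs' => h.next _ _ _ _ hs hs'
    set U : PMF (List Bool → S) := q.bindOnSupport (fun s' hs' => T (k + 1) s' (hqs s' hs'))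
      with hU
    have hUl : ∀ a ≤ n, ∀ z, U.toOuterMeasure (lev π a z) ≤ 4 ^ a * L k s (a + 1) z := by
      intro a ha z
      rw [hU, PMF.toOuterMeasure_bindOnSupport_apply]
      calc _ ≤ ∑' s', K k s s' * (4 ^ a * L (k + 1) s' a z) := by
            refine ENNReal.tsum_le_tsum (fun s' => ?_)
            refine mul_le_mul' le_rfl ?_
            split_ifs with h0
            · exact zero_le
            · exact hTl _ _ _ a ha z
        _ = 4 ^ a * ∑' s', K k s s' * L (k + 1) s' a z := by
            rw [← ENNReal.tsum_mul_left]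
            refine tsum_congr (fun s' => ?_)
            ring
        _ ≤ _ := mul_le_mul' le_rfl (h.succ _ _ _ _ _ hs ha)
    have hUs : ∀ f ∈ U.support, ∃ s', K k s s' ≠ 0 ∧ IsTree π K n (k + 1) s' f := by
      intro f hf
      rw [hU, PMF.mem_support_bindOnSupport_iff] at hf
      obtain ⟨s', hs', hf⟩ := hf
      exact ⟨s', hs', hT _ _ _ f hf⟩
    have hclash : (two U).toOuterMeasure (clash π n (π s)) ≤ 2⁻¹ := by
      refine (clash_le U n (π s)).trans ?_
      refine clash_half n (fun z => U.toOuterMeasure (hit π n z)) (fun a z => L k s (a + 1) z)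
        (π s) (fun z => ?_) (fun a ha z => h.dec _ _ _ _ _ hs (by omega))
        (fun a ha => h.tot _ _ _ _ hs (by omega))
      refine (hit_le U n z).trans (Finset.sum_le_sum (fun a ha => ?_))
      rw [Finset.mem_range] at ha
      exact hUl a (by omega) z
    have hgood : 2⁻¹ ≤ (two U).toOuterMeasure (clash π n (π s))ᶜ := by
      refine half_le _ _ ?_
      rwa [compl_compl]
    have hex := exists_good _ _ hgood
    refine ⟨((two U).filter (clash π n (π s))ᶜ hex).map
      (fun p => node s (fun b => cond b p.1 p.2)), ?_, ?_⟩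
    · intro f hf
      rw [PMF.mem_support_map_iff] at hf
      obtain ⟨⟨f1, f2⟩, hf, rfl⟩ := hf
      rw [PMF.mem_support_filter_iff] at hf
      obtain ⟨hc, hsup⟩ := hf
      rw [two, PMF.mem_support_bind_iff] at hsup
      obtain ⟨g1, hg1, hsup⟩ := hsup
      rw [PMF.mem_support_map_iff] at hsup
      obtain ⟨g2, hg2, hg⟩ := hsup
      rw [Prod.mk.injEq] at hg
      obtain ⟨rfl, rfl⟩ := hg
      obtain ⟨s1, hs1, ht1⟩ := hUs g1 hg1
      obtain ⟨s2, hs2, ht2⟩ := hUs g2 hg2
      have key : ∀ b, ∃ s', K k s s' ≠ 0 ∧ IsTree π K n (k + 1) s' (cond b g1 g2) := by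
        intro b
        cases b
        · exact ⟨s2, hs2, ht2⟩
        · exact ⟨s1, hs1, ht1⟩
      have hroot : ∀ b t, t.length ≤ n → π (cond b g1 g2 t) ≠ π s := by
        intro b t ht heq
        apply hc
        cases b
        · exact Or.inr (Or.inr ⟨trivial, t, ht, heq⟩)
        · exact Or.inr (Or.inl ⟨⟨t, ht, heq⟩, trivial⟩)
      have hcross : ∀ t t', t.length ≤ n → t'.length ≤ n → π (g1 t) ≠ π (g2 t') := by
        intro t t' ht ht' heq
        apply hc
        refine Or.inl (Set.mem_iUnion.2 ⟨π (g1 t), ⟨t, ht, rfl⟩, ⟨t', ht', heq.symm⟩⟩)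
      refine ⟨rfl, ?_, ?_⟩
      · intro t b ht
        cases t with
        | nil =>
          obtain ⟨s', hs', ht'⟩ := key b
          simp only [List.nil_append, node, List.length_nil, add_zero]
          rw [ht'.root]
          exact hs'
        | cons c t =>
          obtain ⟨s', hs', ht'⟩ := key c
          simp only [List.cons_append, node, List.length_cons]
          have := ht'.step t b (by simpa using ht)
          rwa [show k + (t.length + 1) = k + 1 + t.length by ring]
      · intro t t' ht ht' heq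
        cases t with
        | nil =>
          cases t' with
          | nil => rfl
          | cons c t' =>
            exact absurd heq.symm (hroot c t' (by simpa using ht'))
        | cons c t =>
          cases t' with
          | nil => exact absurd heq (hroot c t (by simpa using ht))
          | cons c' t' =>
            have ht1 : t.length ≤ n := by simpa using ht
            have ht1' : t'.length ≤ n := by simpa using ht'
            have heq' : π (cond c g1 g2 t) = π (cond c' g1 g2 t') := heq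
            by_cases hcc : c = c'
            · subst hcc
              obtain ⟨s', hs', htr⟩ := key c
              rw [htr.inj t t' ht1 ht1' heq']
            · exfalso
              cases c <;> cases c'
              · exact hcc rfl
              · exact hcross t' t ht1' ht1 heq'.symm
              · exact hcross t t' ht1 ht1' heq'
              · exact hcc rfl
    · intro a ha z
      rw [PMF.toOuterMeasure_map_apply]
      cases a with
      | zero =>
        by_cases hz : π s = z
        · subst hz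
          calc _ ≤ (1 : ℝ≥0∞) := by
                rw [← outer_univ ((two U).filter (clash π n (π s))ᶜ hex)]
                exact MeasureTheory.measure_mono (Set.subset_univ _)
            _ ≤ _ := by
                rw [pow_zero, one_mul]
                exact h.zero _ _ _ hs
        · have : (fun p : (List Bool → S) × (List Bool → S) =>
              node s (fun b => cond b p.1 p.2)) ⁻¹' lev π 0 z = ∅ := by
            ext p
            simp only [Set.mem_preimage, Set.mem_empty_iff_false, iff_false]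
            rintro ⟨t, ht, hz'⟩
            rw [List.length_eq_zero_iff.1 ht] at hz'
            exact hz hz'
          rw [this]
          simp
      | succ a =>
        refine (filter_le _ _ hex hgood _).trans ?_
        have hsub : (fun p : (List Bool → S) × (List Bool → S) =>
            node s (fun b => cond b p.1 p.2)) ⁻¹' lev π (a + 1) z ⊆
            lev π a z ×ˢ Set.univ ∪ Set.univ ×ˢ lev π a z := by
          rintro ⟨f1, f2⟩ ⟨t, ht, hz⟩
          cases t with
          | nil => simp at ht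
          | cons b t =>
            have ht' : t.length = a := by simpa using ht
            cases b
            · exact Or.inr ⟨trivial, t, ht', hz⟩
            · exact Or.inl ⟨⟨t, ht', hz⟩, trivial⟩
        calc 2 * (two U).toOuterMeasure _
            ≤ 2 * (U.toOuterMeasure (lev π a z) + U.toOuterMeasure (lev π a z)) := by
              refine mul_le_mul' le_rfl ((MeasureTheory.measure_mono hsub).trans
                ((MeasureTheory.measure_union_le _ _).trans ?_))
              rw [two_rect, two_rect, outer_univ, mul_one, one_mul]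
          _ = 4 * U.toOuterMeasure (lev π a z) := by ring
          _ ≤ 4 * (4 ^ a * L k s (a + 1) z) := mul_le_mul' le_rfl (hUl a (by omega) z)
          _ = _ := by ring

end

end Pool.Agent.W_55e385_h22
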