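import Pool.Agent.W_55e385_h22.Coin

set_option autoImplicit false

/-!
# Maps with subexponential fibres
-/

namespace Pool.Agent.W_55e385_h22

open scoped ENNReal NNReal
open MeasureTheory

section

variable {V W : Type} {G : SimpleGraph V} {G' : SimpleGraph W}

theorem dist_lip (hG : G.Connected) (hG' : G'.Connected) {L : ℕ} {π : W → V}
    (hL : ∀ x y, G'.Adj x y → G.dist (π x) (π y) ≤ L) (x y : W) :
    G.dist (π x) (π y) ≤ L * G'.dist x y := by
  obtain ⟨p, hp⟩ := hG'.exists_walk_length_eq_dist x y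
  rw [← hp]
  clear hp
  induction p with
  | nil => simp
  | cons h p ih =>
    rename_i u v w
    rw [SimpleGraph.Walk.length_cons, mul_add, mul_one]
    refine (hG.dist_triangle (v := π v)).trans ?_
    have := hL _ _ h
    omega

theorem exists_ratio (R : ℕ) (ρ : ℝ≥0) (hρ : ρ < 1) : ∃ q : ℝ≥0, 1 < q ∧ q ^ R * ρ < 1 := by
  have h1 : Filter.Tendsto (fun q : ℝ≥0 => q ^ R * ρ) (nhdsWithin 1 (Set.Ioi 1))
      (nhds (1 ^ R * ρ)) := by
    have : Continuous (fun q : ℝ≥0 => q ^ R * ρ) := by fun_prop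
    exact (this.tendsto 1).mono_left nhdsWithin_le_nhds
  rw [one_pow, one_mul] at h1
  have h2 : ∀ᶠ q in nhdsWithin (1 : ℝ≥0) (Set.Ioi 1), q ^ R * ρ < 1 :=
    h1.eventually (gt_mem_nhds hρ)
  have h3 : ∀ᶠ q in nhdsWithin (1 : ℝ≥0) (Set.Ioi 1), 1 < q := eventually_mem_nhdsWithin
  have : (nhdsWithin (1 : ℝ≥0) (Set.Ioi 1)).NeBot := inferInstance
  exact (h3.and h2).exists

/-- The image of an unpredictable process under a map with subexponential fibres. -/
theorem push (hG : G.Connected) (hG' : G'.Connected) {D : ℕ}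
    (hD' : ∀ v, (G'.neighborSet v).Finite ∧ (G'.neighborSet v).ncard ≤ D) {L : ℕ} {π : W → V}
    (hL : ∀ x y, G'.Adj x y → G.dist (π x) (π y) ≤ L) {R : ℕ} {C ρ q K : ℝ≥0}
    (hf : ∀ (x : W) (v : V) (r : ℕ),
      (({y : W | G'.dist x y ≤ r ∧ π y = v}.ncard : ℕ) : ℝ≥0) ≤ K * q ^ r)
    {Ω : Type} [MeasurableSpace Ω] (μ : Measure Ω) [IsProbabilityMeasure μ] (X : ℕ → Ω → W)
    (h : ∀ N, Unpredictable G' R C ρ N μ X) (N : ℕ) :
    Unpredictable G (L * R) (K * C) (q ^ R * ρ) N μ (fun n ω => π (X n ω)) := by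
  classical
  have := countable_of hG' hD'
  have hm := (h 0).1
  have hmh := meas_hist hm
  have hmπ : ∀ n y, MeasurableSet {ω | π (X n ω) = y} := by
    intro n y
    have : {ω | π (X n ω) = y} = ⋃ x ∈ {x | π x = y}, {ω | X n ω = x} := by
      ext ω; simp
    rw [this]
    exact MeasurableSet.biUnion (Set.to_countable _) (fun x _ => hm n x)
  have hae : ∀ᵐ ω ∂μ, ∀ i, G'.dist (X i ω) (X (i + 1) ω) ≤ R := by
    rw [ae_all_iff]
    intro i
    exact (h (i + 1)).2.1 i (Nat.lt_succ_self i)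
  refine ⟨hmπ, ?_, ?_⟩
  · intro n _
    refine hae.mono (fun ω hω => ?_)
    refine (dist_lip hG hG' hL _ _).trans ?_
    exact Nat.mul_le_mul_left L (hω n)
  · intro m a _ x y
    set E : Set Ω := {ω | ∀ i ≤ m, π (X i ω) = x i} with hE
    set B : Set Ω := {ω | (∀ i ≤ m, π (X i ω) = x i) ∧ π (X (m + a) ω) = y} with hB
    have hEm : MeasurableSet E := by
      have : E = ⋂ i ∈ {i | i ≤ m}, {ω | π (X i ω) = x i} := by
        ext ω; simp [hE]
      rw [this]
      exact MeasurableSet.biInter (Set.to_countable _) (fun i _ => hmπ i _)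
    have hBm : MeasurableSet B := by
      have : B = E ∩ {ω | π (X (m + a) ω) = y} := rfl
      rw [this]
      exact hEm.inter (hmπ _ _)
    have key : ∀ s : List W, μ (B ∩ {ω | hist X m ω = s}) ≤
        (((K * C : ℝ≥0) : ℝ≥0∞) * ((q ^ R * ρ : ℝ≥0) : ℝ≥0∞) ^ a) *
          μ (E ∩ {ω | hist X m ω = s}) := by
      intro s
      rcases Set.eq_empty_or_nonempty (E ∩ {ω | hist X m ω = s}) with he | ⟨w, hwE, hws⟩
      · have : B ∩ {ω | hist X m ω = s} = ∅ := by
          rw [← Set.subset_empty_iff, ← he]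
          rintro ω ⟨hω, hω'⟩
          exact ⟨hω.1, hω'⟩
        rw [this, measure_empty]
        exact zero_le
      · set F : Set Ω := {ω | ∀ i ≤ m, X i ω = X i w} with hF
        have e1 : {ω | hist X m ω = s} = F := by
          ext ω
          change hist X m ω = s ↔ _
          rw [← (hws : _ = s), hist_eq_iff]
          rfl
        have hFE : F ⊆ E := by
          intro ω hω i hi
          rw [hω i hi]
          exact hwE i hi
        rw [e1, Set.inter_eq_right.2 hFE]
        obtain ⟨bd, hbd⟩ := ball_bound hD' (R * a)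
        obtain ⟨T, hT, -⟩ := hbd (X m w)
        set S : Finset W := T.filter (fun v => G'.dist (X m w) v ≤ R * a ∧ π v = y) with hS
        have hScard : (S.card : ℝ≥0) ≤ K * q ^ (R * a) := by
          refine le_trans ?_ (hf (X m w) y (R * a))
          have hsub : (S : Set W) ⊆ {v | G'.dist (X m w) v ≤ R * a ∧ π v = y} := by
            intro v hv
            rw [hS, Finset.mem_coe, Finset.mem_filter] at hv
            exact hv.2
          have hfin : {v | G'.dist (X m w) v ≤ R * a ∧ π v = y}.Finite := by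
            refine T.finite_toSet.subset ?_
            rintro v ⟨hv, -⟩
            obtain ⟨p, hp⟩ := hG'.exists_walk_length_eq_dist (X m w) v
            exact hT v p (hp.le.trans hv)
          have := Set.ncard_le_ncard hsub hfin
          rw [Set.ncard_coe_finset] at this
          exact_mod_cast this
        have hnull : μ {ω | ¬ ∀ i, G'.dist (X i ω) (X (i + 1) ω) ≤ R} = 0 := hae
        have hcov : B ∩ F ⊆ (⋃ v ∈ S, {ω | (∀ i ≤ m, X i ω = X i w) ∧ X (m + a) ω = v}) ∪
            {ω | ¬ ∀ i, G'.dist (X i ω) (X (i + 1) ω) ≤ R} := by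
          rintro ω ⟨hωB, hωF⟩
          by_cases hω : ∀ i, G'.dist (X i ω) (X (i + 1) ω) ≤ R
          · left
            have h1 : X (m + a) ω ∈ S := by
              rw [hS, Finset.mem_filter]
              have h2 : X m ω = X m w := hωF m le_rfl
              have h3 : ∃ p : G'.Walk (X m w) (X (m + a) ω), p.length ≤ R * a := by
                rw [← h2]
                exact walk_steps hG' (fun i => X i ω) m a (fun i _ => hω _)
              obtain ⟨p, hp⟩ := h3
              exact ⟨hT _ p hp, (SimpleGraph.dist_le p).trans hp, hωB.2⟩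
            exact Set.mem_iUnion₂.2 ⟨_, h1, hωF, rfl⟩
          · right
            exact hω
        calc μ (B ∩ F)
            ≤ μ (⋃ v ∈ S, {ω | (∀ i ≤ m, X i ω = X i w) ∧ X (m + a) ω = v}) + 0 := by
              rw [← hnull]
              exact (measure_mono hcov).trans (measure_union_le _ _)
          _ ≤ ∑ v ∈ S, μ {ω | (∀ i ≤ m, X i ω = X i w) ∧ X (m + a) ω = v} := by
              rw [add_zero]
              exact measure_biUnion_finset_le _ _
          _ ≤ ∑ v ∈ S, (C : ℝ≥0∞) * (ρ : ℝ≥0∞) ^ a * μ F :=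
              Finset.sum_le_sum (fun v _ => (h (m + a)).2.2 m a le_rfl (fun i => X i w) v)
          _ = (S.card : ℝ≥0∞) * ((C : ℝ≥0∞) * (ρ : ℝ≥0∞) ^ a * μ F) := by
              rw [Finset.sum_const, nsmul_eq_mul]
          _ ≤ ((K * q ^ (R * a) : ℝ≥0) : ℝ≥0∞) * ((C : ℝ≥0∞) * (ρ : ℝ≥0∞) ^ a * μ F) := by
              refine mul_le_mul' ?_ le_rfl
              exact_mod_cast hScard
          _ = _ := by
              push_cast
              rw [pow_mul]
              ring
    calc μ B = ∑' s, μ (B ∩ {ω | hist X m ω = s}) := (tsum_fib μ _ (hmh m) B hBm).symm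
      _ ≤ ∑' s, (((K * C : ℝ≥0) : ℝ≥0∞) * ((q ^ R * ρ : ℝ≥0) : ℝ≥0∞) ^ a) *
          μ (E ∩ {ω | hist X m ω = s}) := ENNReal.tsum_le_tsum key
      _ = _ := by rw [ENNReal.tsum_mul_left, tsum_fib μ _ (hmh m) E hEm]

/-- Expanding subgraphs descend along Lipschitz maps with subexponential fibres. -/
theorem subgraph_descends (hG : G.Connected) (hG' : G'.Connected) {D D' : ℕ}
    (hD : ∀ v, (G.neighborSet v).Finite ∧ (G.neighborSet v).ncard ≤ D)
    (hD' : ∀ v, (G'.neighborSet v).Finite ∧ (G'.neighborSet v).ncard ≤ D') {L : ℕ} {π : W → V}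
    (hL : ∀ x y, G'.Adj x y → G.dist (π x) (π y) ≤ L)
    (hf : ∀ q : ℝ, 1 < q → ∃ C : ℝ, ∀ (x : W) (v : V) (r : ℕ),
      (({y : W | G'.dist x y ≤ r ∧ π y = v}.ncard : ℕ) : ℝ) ≤ C * q ^ r)
    (h : HasExpandingSubgraph G') : HasExpandingSubgraph G := by
  obtain ⟨R, C, ρ, hρ, Ω, _, μ, X, hμ, hX⟩ := process_of_subgraph hD' h
  obtain ⟨q, hq, hqR⟩ := exists_ratio R ρ hρ
  obtain ⟨K, hK⟩ := hf (q : ℝ) (by exact_mod_cast hq)
  refine subgraph_of_process hG hD (L * R) (K.toNNReal * C) (q ^ R * ρ) hqR μ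
    (fun n ω => π (X n ω)) (fun N => push hG hG' hD' hL ?_ μ X hX N)
  intro x v r
  rw [← NNReal.coe_le_coe]
  push_cast
  refine (hK x v r).trans ?_
  gcongr
  exact Real.le_coe_toNNReal K

end

end Pool.Agent.W_55e385_h22
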