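import Pool.Agent.W_55e385_h22.Proc

set_option autoImplicit false

/-!
# Finite trees, compactness
-/

namespace Pool.Agent.W_55e385_h22

open scoped ENNReal NNReal
open MeasureTheory

section

variable {V : Type} {G : SimpleGraph V}

theorem countable_of (hG : G.Connected) {D : ℕ}
    (hD : ∀ v, (G.neighborSet v).Finite ∧ (G.neighborSet v).ncard ≤ D) : Countable V := by
  obtain ⟨o⟩ := hG.nonempty
  have h : ∀ n, ∃ F : Finset V, ∀ (w : V) (p : G.Walk o w), p.length ≤ n → w ∈ F := by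
    intro n
    obtain ⟨B, hB⟩ := ball_bound hD n
    obtain ⟨F, hF, -⟩ := hB o
    exact ⟨F, hF⟩
  choose F hF using h
  rw [← Set.countable_univ_iff]
  refine Set.Countable.mono ?_ (Set.countable_iUnion (fun n => (F n).countable_toSet))
  intro w _
  obtain ⟨p⟩ := hG.preconnected o w
  exact Set.mem_iUnion.2 ⟨p.length, hF _ w p le_rfl⟩

/-- A binary tree of depth `n` in `G`, rooted at `o`, with edges of length at most `L`. -/
structure VTree (G : SimpleGraph V) (L n : ℕ) (o : V) (F : List Bool → V) : Prop where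
  root : F [] = o
  step : ∀ t b, t.length < n → ∃ p : G.Walk (F t) (F (t ++ [b])), p.length ≤ L
  inj : ∀ t t', t.length ≤ n → t'.length ≤ n → F t = F t' → t = t'

theorem walk_steps (hG : G.Connected) {R : ℕ} (x : ℕ → V) (a j : ℕ)
    (h : ∀ i < j, G.dist (x (a + i)) (x (a + i + 1)) ≤ R) :
    ∃ p : G.Walk (x a) (x (a + j)), p.length ≤ R * j := by
  induction j with
  | zero => exact ⟨SimpleGraph.Walk.nil, by simp⟩
  | succ j ih =>
    obtain ⟨p, hp⟩ := ih (fun i hi => h i (by omega))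
    obtain ⟨q, hq⟩ := hG.exists_walk_length_eq_dist (x (a + j)) (x (a + j + 1))
    refine ⟨p.append q, ?_⟩
    rw [SimpleGraph.Walk.length_append, hq]
    have := h j (by omega)
    calc _ ≤ R * j + R := by omega
      _ = R * (j + 1) := by ring

theorem exists_scale (C ρ : ℝ≥0) (hρ : ρ < 1) : ∃ l : ℕ, ∀ a, 1 ≤ a →
    (C : ℝ≥0∞) * (ρ : ℝ≥0∞) ^ (a * l) ≤ (8⁻¹ ^ a) ^ 2 := by
  set C' : ℝ≥0 := max C 1 with hC
  have hC1 : 1 ≤ C' := le_max_right _ _
  have hC0 : 0 < C' := lt_of_lt_of_le one_pos hC1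
  obtain ⟨l, hl⟩ := exists_pow_lt_of_lt_one (show (0 : ℝ≥0) < (8⁻¹) ^ 2 / C' by positivity) hρ
  refine ⟨l, fun a ha => ?_⟩
  have h1 : C' * ρ ^ l ≤ (8⁻¹) ^ 2 := by
    calc C' * ρ ^ l ≤ C' * ((8⁻¹) ^ 2 / C') := by gcongr
      _ = (8⁻¹) ^ 2 := by field_simp
  have h2 : C * ρ ^ (a * l) ≤ ((8⁻¹) ^ a) ^ 2 := by
    calc C * ρ ^ (a * l) ≤ C' * ρ ^ (a * l) := by gcongr; exact le_max_left _ _
      _ ≤ C' ^ a * ρ ^ (a * l) := by
          gcongr
          exact le_self_pow₀ hC1 (by omega)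
      _ = (C' * ρ ^ l) ^ a := by rw [mul_pow, ← pow_mul, mul_comm a l]
      _ ≤ ((8⁻¹) ^ 2) ^ a := by gcongr
      _ = ((8⁻¹) ^ a) ^ 2 := by rw [← pow_mul, ← pow_mul, mul_comm]
  have h8 : (8 : ℝ≥0∞)⁻¹ = ((8⁻¹ : ℝ≥0) : ℝ≥0∞) := by
    rw [ENNReal.coe_inv (by norm_num)]; rfl
  rw [h8]
  exact_mod_cast h2

theorem vtree_of_proc (hG : G.Connected) [Countable V] (R : ℕ) (C ρ : ℝ≥0) (hρ : ρ < 1) :
    ∃ L l : ℕ, ∀ (n N : ℕ), n * l ≤ N → ∀ (Ω : Type) [MeasurableSpace Ω] (μ : Measure Ω)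
      [IsProbabilityMeasure μ] (X : ℕ → Ω → V), Unpredictable G R C ρ N μ X →
      ∀ o, μ {ω | X 0 ω = o} ≠ 0 → ∃ F, VTree G L n o F := by
  obtain ⟨l, hl⟩ := exists_scale C ρ hρ
  refine ⟨R * l, l, ?_⟩
  intro n N hN Ω _ μ _ X h o ho
  have hS := sys_proc μ o h l hl
  have hok : Okp X μ l N n 0 [o] := by
    refine ⟨by simpa using hN, ?_⟩
    have : {ω | hist X (0 * l) ω = [o]} = {ω | X 0 ω = o} := by
      ext ω
      change hist X (0 * l) ω = [o] ↔ X 0 ω = o
      rw [zero_mul, hist]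
      simp
    rwa [this]
  obtain ⟨T, hT, -⟩ := core hS n 0 [o] hok
  obtain ⟨f, hf⟩ := T.support_nonempty
  have htree := hT f hf
  refine ⟨fun t => (f t).headD o, ⟨?_, ?_, htree.inj⟩⟩
  · rw [htree.root]; rfl
  · intro t b ht
    have hK := htree.step t b ht
    rw [zero_add] at hK
    have hne : μ ({ω | hist X (t.length * l) ω = f t} ∩
        {ω | hist X ((t.length + 1) * l) ω = f (t ++ [b])}) ≠ 0 := by
      intro h0
      apply hK
      rw [Kp, h0, ENNReal.zero_div]
    have hae : ∀ᵐ ω ∂μ, ∀ i, i < N → G.dist (X i ω) (X (i + 1) ω) ≤ R := by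
      rw [ae_all_iff]
      intro i
      by_cases hi : i < N
      · exact (h.2.1 i hi).mono (fun _ h _ => h)
      · exact ae_of_all _ (fun _ hi' => absurd hi' hi)
    have hex : ∃ ω, (hist X (t.length * l) ω = f t ∧
        hist X ((t.length + 1) * l) ω = f (t ++ [b])) ∧
        ∀ i, i < N → G.dist (X i ω) (X (i + 1) ω) ≤ R := by
      by_contra hno
      push Not at hno
      apply hne
      refine measure_mono_null ?_ hae
      intro ω hω hbad
      obtain ⟨i, hi, hlt⟩ := hno ω hω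
      exact absurd (hbad i hi) (not_le.2 hlt)
    obtain ⟨ω, ⟨h1, h2⟩, h3⟩ := hex
    have hb : (t.length + 1) * l ≤ N := (Nat.mul_le_mul_right l (by omega)).trans hN
    obtain ⟨p, hp⟩ := walk_steps hG (fun i => X i ω) (t.length * l) l (R := R) (by
      intro i hi
      refine h3 _ ?_
      calc t.length * l + i < t.length * l + l := by omega
        _ = (t.length + 1) * l := by ring
        _ ≤ N := hb)
    have e1 : (f t).headD o = X (t.length * l) ω := by rw [← h1, head_hist]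
    have e2 : (f (t ++ [b])).headD o = X (t.length * l + l) ω := by
      rw [← h2, head_hist, show (t.length + 1) * l = t.length * l + l by ring]
    change ∃ p : G.Walk ((f t).headD o) ((f (t ++ [b])).headD o), p.length ≤ R * l
    rw [e1, e2]
    exact ⟨p, hp⟩

theorem vtree_walk {L n : ℕ} {o : V} {F : List Bool → V} (h : VTree G L n o F)
    (t : List Bool) (ht : t.length ≤ n) : ∃ p : G.Walk o (F t), p.length ≤ L * t.length := by
  induction t using List.reverseRecOn with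
  | nil =>
    rw [h.root]
    exact ⟨SimpleGraph.Walk.nil, by simp⟩
  | append_singleton t b ih =>
    rw [List.length_append, List.length_singleton] at ht
    obtain ⟨p, hp⟩ := ih (by omega)
    obtain ⟨q, hq⟩ := h.step t b (by omega)
    refine ⟨p.append q, ?_⟩
    rw [SimpleGraph.Walk.length_append, List.length_append, List.length_singleton]
    calc _ ≤ L * t.length + L := by omega
      _ = L * (t.length + 1) := by ring

theorem tree_of_finite {D : ℕ}
    (hD : ∀ v, (G.neighborSet v).Finite ∧ (G.neighborSet v).ncard ≤ D) (L : ℕ) (o : V)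
    (h : ∀ n, ∃ F, VTree G L n o F) : ∃ F : List Bool → V, Function.Injective F ∧
      ∀ t b, ∃ p : G.Walk (F t) (F (t ++ [b])), p.length ≤ L := by
  classical
  choose F hF using h
  have hev : ∀ m : ℕ, ∀ᶠ n in (Filter.hyperfilter ℕ : Filter ℕ), m ≤ n := by
    intro m
    have h1 : ∀ᶠ n in (Filter.atTop : Filter ℕ), m ≤ n := Filter.eventually_ge_atTop m
    rw [← Nat.cofinite_eq_atTop] at h1
    exact Filter.hyperfilter_le_cofinite h1
  have hlim : ∀ t, ∃ v, ∀ᶠ n in (Filter.hyperfilter ℕ : Filter ℕ), F n t = v := by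
    intro t
    obtain ⟨B, hB⟩ := ball_bound hD (L * t.length)
    obtain ⟨S, hS, -⟩ := hB o
    have h1 : ∀ᶠ n in (Filter.hyperfilter ℕ : Filter ℕ), ∃ v ∈ (S : Set V), F n t = v := by
      refine (hev t.length).mono (fun n hn => ?_)
      obtain ⟨p, hp⟩ := vtree_walk (hF n) t hn
      exact ⟨_, hS _ p hp, rfl⟩
    rw [Ultrafilter.eventually_exists_mem_iff S.finite_toSet] at h1
    obtain ⟨v, -, hv⟩ := h1
    exact ⟨v, hv⟩
  choose f hf using hlim
  refine ⟨f, ?_, ?_⟩
  · intro t t' htt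
    obtain ⟨n, h1, h2, h3, h4⟩ := ((hf t).and ((hf t').and ((hev t.length).and
      (hev t'.length)))).exists
    exact (hF n).inj t t' h3 h4 (by rw [h1, h2, htt])
  · intro t b
    obtain ⟨n, h1, h2, h3⟩ := ((hf t).and ((hf (t ++ [b])).and (hev (t.length + 1)))).exists
    have := (hF n).step t b h3
    rwa [h1, h2] at this

theorem exists_start [Countable V] {Ω : Type} [MeasurableSpace Ω] (μ : Measure Ω)
    [IsProbabilityMeasure μ] (X : ℕ → Ω → V) (hm : ∀ n y, MeasurableSet {ω | X n ω = y}) :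
    ∃ o, μ {ω | X 0 ω = o} ≠ 0 := by
  by_contra hno
  push Not at hno
  have h1 := tsum_fib μ (X 0) (hm 0) Set.univ MeasurableSet.univ
  simp only [Set.univ_inter, hno, tsum_zero, measure_univ] at h1
  exact zero_ne_one h1

/-- An unpredictable process gives an expanding subgraph. -/
theorem subgraph_of_process (hG : G.Connected) {D : ℕ}
    (hD : ∀ v, (G.neighborSet v).Finite ∧ (G.neighborSet v).ncard ≤ D) (R : ℕ) (C ρ : ℝ≥0)
    (hρ : ρ < 1) {Ω : Type} [MeasurableSpace Ω] (μ : Measure Ω) [IsProbabilityMeasure μ]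
    (X : ℕ → Ω → V) (h : ∀ N, Unpredictable G R C ρ N μ X) : HasExpandingSubgraph G := by
  have := countable_of hG hD
  obtain ⟨o, ho⟩ := exists_start μ X (h 0).1
  obtain ⟨L, l, hL⟩ := vtree_of_proc hG R C ρ hρ
  obtain ⟨F, hF, hFL⟩ := tree_of_finite hD L o
    (fun n => hL n (n * l) le_rfl Ω μ X (h _) o ho)
  exact tree_subgraph hD F hF L hFL

/-- In a transitive graph it is enough to have unpredictable processes of every finite
length. -/
theorem subgraph_of_finite_processes (hG : G.Connected) {D : ℕ}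
    (hD : ∀ v, (G.neighborSet v).Finite ∧ (G.neighborSet v).ncard ≤ D)
    (ht : ∀ u v : V, ∃ φ : G ≃g G, φ u = v) (R : ℕ) (C ρ : ℝ≥0) (hρ : ρ < 1)
    (h : ∀ N, ∃ (Ω : Type) (_ : MeasurableSpace Ω) (μ : Measure Ω) (X : ℕ → Ω → V),
      IsProbabilityMeasure μ ∧ Unpredictable G R C ρ N μ X) : HasExpandingSubgraph G := by
  have := countable_of hG hD
  obtain ⟨o⟩ := hG.nonempty
  obtain ⟨L, l, hL⟩ := vtree_of_proc hG R C ρ hρ
  obtain ⟨F, hF, hFL⟩ := tree_of_finite hD L o (by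
    intro n
    obtain ⟨Ω, _, μ, X, hμ, hX⟩ := h (n * l)
    obtain ⟨v, hv⟩ := exists_start μ X hX.1
    obtain ⟨F, hF⟩ := hL n (n * l) le_rfl Ω μ X hX v hv
    obtain ⟨φ, hφ⟩ := ht v o
    refine ⟨fun t => φ (F t), ⟨?_, ?_, ?_⟩⟩
    · rw [hF.root, hφ]
    · intro t b htn
      obtain ⟨p, hp⟩ := hF.step t b htn
      exact ⟨p.map φ.toHom, by rw [SimpleGraph.Walk.length_map]; exact hp⟩
    · intro t t' h1 h2 h3
      exact hF.inj t t' h1 h2 (φ.injective h3))
  exact tree_subgraph hD F hF L hFL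

end

end Pool.Agent.W_55e385_h22
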