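import Mathlib

set_option autoImplicit false

/-!
# A counting form of the local lemma for patterns of independent variables
-/

namespace Pool.Agent.W_55e385_h22

open MeasureTheory ProbabilityTheory
open scoped ENNReal

/-- The configuration `c` takes the values prescribed by the pattern `γ`. -/
def Occ {ι V : Type} (c : ι → V) (γ : List (ι × V)) : Prop := ∀ a ∈ γ, c a.1 = a.2

/-- The probability of a pattern with distinct keys. -/
noncomputable def wgt {ι V : Type} (q : ι → PMF V) (γ : List (ι × V)) : ℝ≥0∞ :=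
  (γ.map (fun a => q a.1 a.2)).prod

section

variable {ι V κ : Type} [MeasurableSpace V]

/-- The product measure. -/
noncomputable def Pr (q : ι → PMF V) : Measure (ι → V) :=
  Measure.infinitePi (fun i => (q i).toMeasure)

instance (q : ι → PMF V) : IsProbabilityMeasure (Pr q) := by
  unfold Pr; infer_instance

/-- The sigma algebra generated by the coordinates in `S`. -/
@[instance_reducible]
def sig (ι V : Type) [MeasurableSpace V] (S : Set ι) : MeasurableSpace (ι → V) :=
  ⨆ i ∈ S, MeasurableSpace.comap (fun c : ι → V => c i) inferInstance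

theorem sig_indep (q : ι → PMF V) {S T : Set ι} (h : Disjoint S T) :
    Indep (sig ι V S) (sig ι V T) (Pr q) := by
  have h1 : iIndepFun (fun (i : ι) (c : ι → V) => c i) (Pr q) := by
    unfold Pr
    exact iIndepFun_infinitePi (X := fun i => (id : V → V)) (fun i => measurable_id)
  exact indep_iSup_of_disjoint (fun i => (measurable_pi_apply i).comap_le) h1.iIndep h

variable [MeasurableSingletonClass V]

theorem occ_meas (γ : List (ι × V)) (S : Set ι) (h : ∀ a ∈ γ, a.1 ∈ S) :
    MeasurableSet[sig ι V S] {c : ι → V | Occ c γ} := by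
  induction γ with
  | nil =>
    have : {c : ι → V | Occ c []} = Set.univ := by
      ext c; simp [Occ]
    rw [this]
    exact MeasurableSet.univ
  | cons a l ih =>
    have h1 : {c : ι → V | Occ c (a :: l)} = (fun c : ι → V => c a.1) ⁻¹' {a.2} ∩ {c | Occ c l} := by
      ext c; simp [Occ]
    rw [h1]
    refine MeasurableSet.inter ?_ (ih (fun b hb => h b (by simp [hb])))
    have h2 : MeasurableSpace.comap (fun c : ι → V => c a.1) inferInstance ≤ sig ι V S :=
      le_iSup₂_of_le a.1 (h a (by simp)) le_rfl
    exact h2 _ ⟨{a.2}, measurableSet_singleton _, rfl⟩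

theorem pr_occ [DecidableEq ι] (q : ι → PMF V) (γ : List (ι × V)) (h : (γ.map Prod.fst).Nodup) :
    Pr q {c | Occ c γ} = wgt q γ := by
  have h1 : {c : ι → V | Occ c γ}
      = Set.pi ((γ.map Prod.fst).toFinset : Set ι) (fun i => {v | ∀ a ∈ γ, a.1 = i → v = a.2}) := by
    ext c
    simp only [Occ, Set.mem_ofPred_eq, Set.mem_pi, List.coe_toFinset]
    constructor
    · rintro hc i - a ha rfl
      exact hc a ha
    · intro hc a ha
      exact hc a.1 (List.mem_map_of_mem ha) a ha rfl
  have h2 : ∀ a ∈ γ, {v : V | ∀ b ∈ γ, b.1 = a.1 → v = b.2} = {a.2} := by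
    intro a ha
    ext v
    simp only [Set.mem_ofPred_eq, Set.mem_singleton_iff]
    constructor
    · intro hv
      exact hv a ha rfl
    · rintro rfl b hb hba
      rw [List.inj_on_of_nodup_map h hb ha hba]
  have h3 : ∀ i ∈ (γ.map Prod.fst).toFinset,
      MeasurableSet {v : V | ∀ a ∈ γ, a.1 = i → v = a.2} := by
    intro i hi
    rw [List.mem_toFinset, List.mem_map] at hi
    obtain ⟨a, ha, rfl⟩ := hi
    rw [h2 a ha]
    exact measurableSet_singleton _
  rw [h1, Pr, Measure.infinitePi_pi _ h3, List.prod_toFinset _ h, wgt, List.map_map]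
  congr 1
  refine List.map_congr_left (fun a ha => ?_)
  simp only [Function.comp_apply]
  rw [h2 a ha, PMF.toMeasure_apply_singleton _ _ (measurableSet_singleton _)]

/-- No pattern of the family with all its keys in `J` occurs. -/
def Gd (Γ : Finset κ) (pat : κ → List (ι × V)) (J : Finset ι) : Set (ι → V) :=
  {c | ∀ τ ∈ Γ, (∀ a ∈ pat τ, a.1 ∈ J) → ¬ Occ c (pat τ)}

theorem gd_meas (Γ : Finset κ) (pat : κ → List (ι × V)) (J : Finset ι) :
    MeasurableSet[sig ι V (J : Set ι)] (Gd Γ pat J) := by
  classical
  have h1 : Gd Γ pat J = ⋂ τ ∈ Γ, (if (∀ a ∈ pat τ, a.1 ∈ J) then {c : ι → V | Occ c (pat τ)}ᶜ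
      else Set.univ) := by
    ext c
    simp only [Gd, Set.mem_ofPred_eq, Set.mem_iInter]
    refine forall₂_congr (fun τ _ => ?_)
    split_ifs with h
    · exact ⟨fun h' => h' h, fun h' _ => h'⟩
    · exact ⟨fun _ => Set.mem_univ _, fun _ h' => absurd h' h⟩
  rw [h1]
  refine Finset.measurableSet_biInter Γ (fun τ _ => ?_)
  split_ifs with h
  · exact (occ_meas (pat τ) (J : Set ι) (fun a ha => by simpa using h a ha)).compl
  · exact MeasurableSet.univ

omit [MeasurableSpace V] [MeasurableSingletonClass V] in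
theorem gd_anti (Γ : Finset κ) (pat : κ → List (ι × V)) {J K : Finset ι} (h : J ⊆ K) :
    Gd Γ pat K ⊆ Gd Γ pat J := by
  intro c hc τ hτ ha
  exact hc τ hτ (fun a haa => h (ha a haa))

/-- **Counting form of the local lemma.** -/
theorem avoid [DecidableEq ι] (q : ι → PMF V) (Γ : Finset κ) (pat : κ → List (ι × V))
    (hnd : ∀ τ ∈ Γ, ((pat τ).map Prod.fst).Nodup) (hne : ∀ τ ∈ Γ, pat τ ≠ [])
    (hsum : ∀ i : ι, ∑ τ ∈ Γ.filter (fun τ => i ∈ (pat τ).map Prod.fst),
      wgt q (pat τ) * 2 ^ (pat τ).length ≤ 1) (J : Finset ι) :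
    0 < Pr q (Gd Γ pat J) := by
  classical
  -- one step
  have step : ∀ (n : ℕ) (J : Finset ι), J.card = n → ∀ i, i ∉ J →
      Pr q (Gd Γ pat J) ≤ 2 * Pr q (Gd Γ pat (insert i J)) := by
    intro n
    induction n using Nat.strong_induction_on with
    | _ n ih =>
      intro J hJ i hi
      -- growth below J
      have grow : ∀ (L M : Finset ι), L ∪ M ⊆ J → Disjoint L M →
          Pr q (Gd Γ pat L) ≤ 2 ^ M.card * Pr q (Gd Γ pat (L ∪ M)) := by
        intro L M
        induction M using Finset.induction_on with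
        | empty => intro _ _; simp
        | insert k M hk ihM =>
          intro hLM hd
          rw [Finset.disjoint_insert_right] at hd
          have hk' : k ∉ L ∪ M := by
            rw [Finset.mem_union]; tauto
          have h1 : L ∪ insert k M = insert k (L ∪ M) := by
            rw [Finset.union_insert]
          rw [h1] at hLM ⊢
          have h2 : (L ∪ M).card < n := by
            rw [← hJ]
            have h3 := Finset.card_le_card hLM
            rw [Finset.card_insert_of_notMem hk'] at h3
            omega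
          have h4 := ih _ h2 (L ∪ M) rfl k hk'
          have h5 := ihM (fun x hx => hLM (Finset.mem_insert_of_mem hx)) hd.2
          rw [Finset.card_insert_of_notMem hk, pow_succ]
          calc Pr q (Gd Γ pat L) ≤ 2 ^ M.card * Pr q (Gd Γ pat (L ∪ M)) := h5
            _ ≤ 2 ^ M.card * (2 * Pr q (Gd Γ pat (insert k (L ∪ M)))) := by gcongr
            _ = _ := by ring
      set Γ' := Γ.filter (fun τ => i ∈ (pat τ).map Prod.fst) with hΓ'
      -- one pattern
      have one : ∀ τ ∈ Γ', Pr q (Gd Γ pat J ∩ {c | Occ c (pat τ)} ∩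
          {_c | ∀ a ∈ pat τ, a.1 ∈ insert i J}) * 2
          ≤ wgt q (pat τ) * 2 ^ (pat τ).length * Pr q (Gd Γ pat J) := by
        intro τ hτ
        rw [hΓ', Finset.mem_filter] at hτ
        by_cases hin : ∀ a ∈ pat τ, a.1 ∈ insert i J
        · set D := ((pat τ).map Prod.fst).toFinset with hD
          have hDc : D.card = (pat τ).length := by
            rw [hD, List.toFinset_card_of_nodup (hnd τ hτ.1), List.length_map]
          have hiD : i ∈ D := by
            rw [hD, List.mem_toFinset]; exact hτ.2
          have h1 : Pr q (Gd Γ pat J ∩ {c | Occ c (pat τ)} ∩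
              {_c | ∀ a ∈ pat τ, a.1 ∈ insert i J})
              ≤ Pr q (Gd Γ pat (J \ D) ∩ {c | Occ c (pat τ)}) := by
            refine measure_mono ?_
            rintro c ⟨⟨h2, h3⟩, -⟩
            exact ⟨gd_anti Γ pat Finset.sdiff_subset h2, h3⟩
          have hdis : Disjoint ((J \ D : Finset ι) : Set ι) (D : Set ι) := by
            rw [Finset.disjoint_coe]
            exact Finset.sdiff_disjoint
          have h2 : Pr q (Gd Γ pat (J \ D) ∩ {c | Occ c (pat τ)})
              = Pr q (Gd Γ pat (J \ D)) * wgt q (pat τ) := by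
            rw [← pr_occ q (pat τ) (hnd τ hτ.1)]
            refine (Indep_iff _ _ _).1 (sig_indep q hdis) _ _ (gd_meas Γ pat (J \ D)) ?_
            refine occ_meas (pat τ) _ (fun a ha => ?_)
            rw [hD]
            simpa using ⟨a.2, ha⟩
          have h3 := grow (J \ D) (J ∩ D)
            (by rw [Finset.sdiff_union_inter]) (Finset.disjoint_sdiff_inter J D)
          rw [Finset.sdiff_union_inter] at h3
          have h4 : (J ∩ D).card + 1 ≤ (pat τ).length := by
            rw [← hDc]
            have : (J ∩ D) ⊂ D := by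
              refine (Finset.ssubset_iff_of_subset Finset.inter_subset_right).2 ⟨i, hiD, ?_⟩
              rw [Finset.mem_inter]
              tauto
            exact Finset.card_lt_card this
          calc _ ≤ (Pr q (Gd Γ pat (J \ D)) * wgt q (pat τ)) * 2 := by
                rw [← h2]; gcongr
            _ ≤ (2 ^ (J ∩ D).card * Pr q (Gd Γ pat J) * wgt q (pat τ)) * 2 := by gcongr
            _ = wgt q (pat τ) * 2 ^ ((J ∩ D).card + 1) * Pr q (Gd Γ pat J) := by ring
            _ ≤ _ := by
              gcongr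
              exact one_le_two
        · have h1 : {_c : ι → V | ∀ a ∈ pat τ, a.1 ∈ insert i J} = ∅ := by
            ext c
            simp only [Set.mem_ofPred_eq, Set.mem_empty_iff_false, iff_false]
            exact hin
          rw [h1, Set.inter_empty, measure_empty, zero_mul]
          exact zero_le
      have hcov : Gd Γ pat J ⊆ Gd Γ pat (insert i J) ∪
          ⋃ τ ∈ Γ', (Gd Γ pat J ∩ {c | Occ c (pat τ)} ∩
            {_c | ∀ a ∈ pat τ, a.1 ∈ insert i J}) := by
        intro c hc
        by_cases h1 : c ∈ Gd Γ pat (insert i J)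
        · exact Or.inl h1
        · right
          simp only [Gd, Set.mem_ofPred_eq, not_forall, not_not] at h1
          obtain ⟨τ, hτ, hin, hocc⟩ := h1
          have hi' : i ∈ (pat τ).map Prod.fst := by
            by_contra hno
            refine hc τ hτ (fun a ha => ?_) hocc
            rcases Finset.mem_insert.1 (hin a ha) with h2 | h2
            · exact absurd (List.mem_map.2 ⟨a, ha, h2⟩) hno
            · exact h2
          simp only [Set.mem_iUnion]
          exact ⟨τ, Finset.mem_filter.2 ⟨hτ, hi'⟩, ⟨hc, hocc⟩, hin⟩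
      have hle : Pr q (Gd Γ pat J) ≤ Pr q (Gd Γ pat (insert i J)) +
          ∑ τ ∈ Γ', Pr q (Gd Γ pat J ∩ {c | Occ c (pat τ)} ∩
            {_c | ∀ a ∈ pat τ, a.1 ∈ insert i J}) :=
        (measure_mono hcov).trans ((measure_union_le _ _).trans
          (add_le_add le_rfl (measure_biUnion_finset_le _ _)))
      have hs : (∑ τ ∈ Γ', Pr q (Gd Γ pat J ∩ {c | Occ c (pat τ)} ∩
            {_c | ∀ a ∈ pat τ, a.1 ∈ insert i J})) * 2 ≤ Pr q (Gd Γ pat J) := by
        rw [Finset.sum_mul]
        calc _ ≤ ∑ τ ∈ Γ', wgt q (pat τ) * 2 ^ (pat τ).length * Pr q (Gd Γ pat J) :=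
              Finset.sum_le_sum one
          _ = (∑ τ ∈ Γ', wgt q (pat τ) * 2 ^ (pat τ).length) * Pr q (Gd Γ pat J) := by
              rw [Finset.sum_mul]
          _ ≤ 1 * Pr q (Gd Γ pat J) := by gcongr; exact hsum i
          _ = _ := one_mul _
      have hfin : Pr q (Gd Γ pat J) ≠ ⊤ := measure_ne_top _ _
      have h9 : Pr q (Gd Γ pat J) * 2 ≤ Pr q (Gd Γ pat (insert i J)) * 2 + Pr q (Gd Γ pat J) := by
        calc _ ≤ (Pr q (Gd Γ pat (insert i J)) + ∑ τ ∈ Γ', Pr q (Gd Γ pat J ∩
              {c | Occ c (pat τ)} ∩ {_c | ∀ a ∈ pat τ, a.1 ∈ insert i J})) * 2 := by gcongr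
          _ = Pr q (Gd Γ pat (insert i J)) * 2 + (∑ τ ∈ Γ', Pr q (Gd Γ pat J ∩
              {c | Occ c (pat τ)} ∩ {_c | ∀ a ∈ pat τ, a.1 ∈ insert i J})) * 2 := add_mul _ _ _
          _ ≤ _ := by gcongr
      rw [mul_two, mul_comm _ (2 : ℝ≥0∞)] at h9
      exact (ENNReal.add_le_add_iff_right hfin).1 h9
  have fin : ∀ J : Finset ι, 1 ≤ 2 ^ J.card * Pr q (Gd Γ pat J) := by
    intro J
    induction J using Finset.induction_on with
    | empty =>
      have h1 : Gd Γ pat ∅ = Set.univ := by
        ext c
        simp only [Gd, Set.mem_ofPred_eq, Set.mem_univ, iff_true]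
        intro τ hτ ha
        exfalso
        cases hp : pat τ with
        | nil => exact hne τ hτ hp
        | cons a l =>
          have := ha a (by rw [hp]; simp)
          simp at this
      rw [h1]
      simp
    | insert i J hi ih =>
      rw [Finset.card_insert_of_notMem hi, pow_succ]
      calc (1 : ℝ≥0∞) ≤ 2 ^ J.card * Pr q (Gd Γ pat J) := ih
        _ ≤ 2 ^ J.card * (2 * Pr q (Gd Γ pat (insert i J))) := by
          gcongr; exact step _ J rfl i hi
        _ = _ := by ring
  have h1 := fin J
  by_contra h2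
  rw [not_lt, nonpos_iff_eq_zero] at h2
  rw [h2, mul_zero] at h1
  exact absurd h1 (by simp)

end

end Pool.Agent.W_55e385_h22
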