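import Pool.Agent.W_55e385_h22.Tree
import Pool.Agent.W_55e385_h22.Hall

set_option autoImplicit false

/-!
# From a spreading chain to an expanding subgraph
-/

namespace Pool.Agent.W_55e385_h22

open scoped ENNReal NNReal

section

variable {V : Type} {G : SimpleGraph V} {A : ℕ → Set V} {P : ℕ → V → V → ℝ≥0∞}

theorem iter_add (m a b : ℕ) (x y : V) :
    iter P m (a + b) x y = ∑' z, iter P m a x z * iter P (m + a) b z y := by
  classical
  induction a generalizing m x with
  | zero =>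
    rw [tsum_eq_single x]
    · simp [iter]
    · intro z hz
      simp [iter, Ne.symm hz]
  | succ a ih =>
    rw [show a + 1 + b = (a + b) + 1 by ring, iter_succ]
    calc ∑' z, P m x z * iter P (m + 1) (a + b) z y
        = ∑' z, ∑' w, P m x z * iter P (m + 1) a z w * iter P (m + (a + 1)) b w y := by
          refine tsum_congr (fun z => ?_)
          rw [ih, ← ENNReal.tsum_mul_left]
          refine tsum_congr (fun w => ?_)
          rw [mul_assoc, show m + 1 + a = m + (a + 1) by ring]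
      _ = ∑' w, ∑' z, P m x z * iter P (m + 1) a z w * iter P (m + (a + 1)) b w y :=
          ENNReal.tsum_comm
      _ = _ := by
          refine tsum_congr (fun w => ?_)
          rw [ENNReal.tsum_mul_right, iter_succ]

/-- The kernel of `l` steps. -/
noncomputable def grp (P : ℕ → V → V → ℝ≥0∞) (l : ℕ) : ℕ → V → V → ℝ≥0∞ :=
  fun n x y => iter P (n * l) l x y

theorem iter_grp (l n a : ℕ) (x y : V) :
    iter (grp P l) n a x y = iter P (n * l) (a * l) x y := by
  induction a generalizing n x with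
  | zero => simp [iter]
  | succ a ih =>
    rw [iter_succ, show (a + 1) * l = l + a * l by ring, iter_add]
    refine tsum_congr (fun z => ?_)
    rw [ih, grp, show (n + 1) * l = n * l + l by ring]

theorem iter_start (hs : ∀ n x y, P n x y ≠ 0 → x ∈ A n ∧ y ∈ A (n + 1)) (m a : ℕ) (x y : V)
    (h : iter P m (a + 1) x y ≠ 0) : x ∈ A m := by
  by_contra hx
  apply h
  rw [iter_succ, ENNReal.tsum_eq_zero]
  intro z
  have : P m x z = 0 := by
    by_contra h1
    exact hx (hs m x z h1).1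
  rw [this, zero_mul]

theorem iter_end (hs : ∀ n x y, P n x y ≠ 0 → x ∈ A n ∧ y ∈ A (n + 1)) (m a : ℕ) (x y : V)
    (hx : x ∈ A m) (h : iter P m a x y ≠ 0) : y ∈ A (m + a) := by
  classical
  induction a generalizing m x with
  | zero =>
    have : x = y := by
      by_contra hne
      exact h (if_neg hne)
    subst this
    exact hx
  | succ a ih =>
    rw [iter_succ, Ne, ENNReal.tsum_eq_zero, not_forall] at h
    obtain ⟨z, hz⟩ := h
    have h1 : P m x z ≠ 0 := left_ne_zero_of_mul hz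
    have h2 : iter P (m + 1) a z y ≠ 0 := right_ne_zero_of_mul hz
    have := ih (m + 1) z (hs m x z h1).2 h2
    rwa [show m + (a + 1) = m + 1 + a by ring]

theorem iter_walk (hG : G.Connected) {R : ℕ} (hR : ∀ n x y, P n x y ≠ 0 → G.dist x y ≤ R)
    (m a : ℕ) (x y : V) (h : iter P m a x y ≠ 0) : ∃ p : G.Walk x y, p.length ≤ R * a := by
  classical
  induction a generalizing m x with
  | zero =>
    have : x = y := by
      by_contra hne
      exact h (if_neg hne)
    subst this
    exact ⟨SimpleGraph.Walk.nil, by simp⟩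
  | succ a ih =>
    rw [iter_succ, Ne, ENNReal.tsum_eq_zero, not_forall] at h
    obtain ⟨z, hz⟩ := h
    have h1 : P m x z ≠ 0 := left_ne_zero_of_mul hz
    have h2 : iter P (m + 1) a z y ≠ 0 := right_ne_zero_of_mul hz
    obtain ⟨p, hp⟩ := ih (m + 1) z h2
    obtain ⟨q, hq⟩ := hG.exists_walk_length_eq_dist x z
    refine ⟨q.append p, ?_⟩
    rw [SimpleGraph.Walk.length_append, hq]
    have := hR m x z h1
    calc _ ≤ R + R * a := by omega
      _ = R * (a + 1) := by ring

theorem iter_row_one (hr : ∀ n x, x ∈ A n → ∑' y, P n x y = 1)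
    (hs : ∀ n x y, P n x y ≠ 0 → x ∈ A n ∧ y ∈ A (n + 1)) (m a : ℕ) (x : V) (hx : x ∈ A m) :
    ∑' y, iter P m a x y = 1 := by
  classical
  induction a generalizing m x with
  | zero =>
    simp only [iter]
    rw [tsum_eq_single x (fun y hy => if_neg (Ne.symm hy)), if_pos rfl]
  | succ a ih =>
    simp only [iter]
    rw [ENNReal.tsum_comm]
    calc ∑' z, ∑' y, P m x z * iter P (m + 1) a z y
        = ∑' z, P m x z * ∑' y, iter P (m + 1) a z y := by simp only [ENNReal.tsum_mul_left]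
      _ = ∑' z, P m x z := by
          refine tsum_congr (fun z => ?_)
          by_cases h : P m x z = 0
          · rw [h, zero_mul]
          · rw [ih (m + 1) z (hs m x z h).2, mul_one]
      _ = 1 := hr m x hx

/-- A function with sum one, as a law. -/
noncomputable def toPMF (f : V → ℝ≥0∞) (h : HasSum f 1) : PMF V := ⟨f, h⟩

/-- A spreading chain gives an expanding subgraph. -/
theorem subgraph_of_chain (hG : G.Connected) {D : ℕ}
    (hD : ∀ v, (G.neighborSet v).Finite ∧ (G.neighborSet v).ncard ≤ D)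
    (hA : (A 0).Nonempty) (h : Spreading G A P) : HasExpandingSubgraph G := by
  classical
  obtain ⟨hr, hs, ⟨R, hR⟩, C0, ρ, hρ, hdec0, hcol0⟩ := h
  -- constants
  set C : ℝ≥0 := max C0 1 with hC
  have hC1 : 1 ≤ C := le_max_right _ _
  have hC0 : 0 < C := lt_of_lt_of_le one_pos hC1
  set η : ℝ≥0 := (64 * C)⁻¹ with hη
  have hη0 : 0 < η := by positivity
  have hηC : C * (64 * η) = 1 := by
    rw [hη]
    field_simp
  have hη1 : 64 * η ≤ 1 := by
    calc 64 * η = 1 * (64 * η) := (one_mul _).symm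
      _ ≤ C * (64 * η) := by gcongr
      _ = 1 := hηC
  obtain ⟨l0, hl0⟩ := exists_pow_lt_of_lt_one (show (0 : ℝ≥0) < η ^ 3 / C by positivity) hρ
  set l := l0 + 1 with hl
  have hl1 : C * ρ ^ l ≤ η ^ 3 := by
    have h1 : ρ ^ l ≤ ρ ^ l0 := pow_le_pow_right_of_le_one' hρ.le (Nat.le_succ _)
    have h2 : ρ ^ l ≤ η ^ 3 / C := h1.trans hl0.le
    calc C * ρ ^ l ≤ C * (η ^ 3 / C) := by gcongr
      _ = η ^ 3 := by field_simp
  -- the grouped kernel
  set K := grp P l with hK
  have hP1 : ∀ m x, ∑' y, P m x y ≤ 1 := by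
    intro m x
    by_cases hx : x ∈ A m
    · exact (hr m x hx).le
    · have : ∀ y, P m x y = 0 := by
        intro y
        by_contra h1
        exact hx (hs m x y h1).1
      simp [this]
  have hrowK : ∀ m a x, ∑' y, iter K m a x y ≤ 1 := by
    intro m a x
    simp only [hK, iter_grp]
    exact iter_row P hP1 _ _ _
  have hcolK : ∀ m a y, ∑' x, iter K m a x y ≤ (C : ℝ≥0∞) := by
    intro m a y
    simp only [hK, iter_grp]
    exact (hcol0 _ _ _).trans (by exact_mod_cast le_max_left _ _)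
  have hη1' : ((η : ℝ≥0) : ℝ≥0∞) ≤ 1 := by
    have : η ≤ 1 := by
      calc η ≤ 64 * η := by
            calc η = 1 * η := (one_mul _).symm
              _ ≤ 64 * η := by gcongr; norm_num
        _ ≤ 1 := hη1
    exact_mod_cast this
  have hdecK : ∀ m a x y, iter K m a x y ≤ (η : ℝ≥0∞) ^ (3 * a) := by
    intro m a x y
    rcases Nat.eq_zero_or_pos a with rfl | ha
    · simp only [iter, mul_zero, pow_zero]
      split_ifs <;> simp
    · rw [hK, iter_grp]
      refine (hdec0 _ _ _ _).trans ?_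
      have h1 : C0 * ρ ^ (a * l) ≤ η ^ (3 * a) := by
        calc C0 * ρ ^ (a * l) ≤ C * ρ ^ (a * l) := by gcongr; exact le_max_left _ _
          _ ≤ C ^ a * ρ ^ (a * l) := by
              gcongr
              exact le_self_pow₀ hC1 (by omega)
          _ = (C * ρ ^ l) ^ a := by rw [mul_pow, ← pow_mul, mul_comm a l]
          _ ≤ (η ^ 3) ^ a := by gcongr
          _ = η ^ (3 * a) := by rw [← pow_mul]
      exact_mod_cast h1
  have hsum : ∀ i, ∑' τ, term K i τ ≤ 2⁻¹ := by
    intro i
    refine (sum_term K hη1' hrowK hcolK hdecK i).trans ?_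
    have h1 : (2 : ℝ≥0∞)⁻¹ ≤ 1 - 4 * (η : ℝ≥0∞) := by
      have h2 : 4 * η ≤ 1 / 2 := by
        have : 4 * η * 16 ≤ 1 := by
          calc 4 * η * 16 = 64 * η := by ring
            _ ≤ 1 := hη1
        rw [← NNReal.coe_le_coe] at this ⊢
        push_cast at this ⊢
        linarith
      have h3 : (2 : ℝ≥0∞)⁻¹ + 4 * (η : ℝ≥0∞) ≤ 1 := by
        have : (2 : ℝ≥0)⁻¹ + 4 * η ≤ 1 := by
          calc (2 : ℝ≥0)⁻¹ + 4 * η ≤ 2⁻¹ + 1 / 2 := by gcongr
            _ = 1 := by norm_num
        have h4 : (((2 : ℝ≥0)⁻¹ + 4 * η : ℝ≥0) : ℝ≥0∞) ≤ 1 := by exact_mod_cast this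
        rw [ENNReal.coe_add, ENNReal.coe_inv (by norm_num), ENNReal.coe_mul] at h4
        have h5 : ((2 : ℝ≥0) : ℝ≥0∞) = 2 := rfl
        have h6 : ((4 : ℝ≥0) : ℝ≥0∞) = 4 := rfl
        rwa [h5, h6] at h4
      exact ENNReal.le_sub_of_add_le_right (by finiteness) h3
    have h5 : (1 - 4 * (η : ℝ≥0∞))⁻¹ ≤ 2 := by
      rw [ENNReal.inv_le_iff_inv_le]
      exact h1
    calc (C : ℝ≥0∞) * (4 * η) * ((1 - 4 * (η : ℝ≥0∞))⁻¹) ^ 3
        ≤ (C : ℝ≥0∞) * (4 * η) * 2 ^ 3 := by gcongr
      _ = ((C * (4 * η) * 2 ^ 3 : ℝ≥0) : ℝ≥0∞) := by push_cast; ring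
      _ = ((2⁻¹ : ℝ≥0) : ℝ≥0∞) := by
          congr 1
          have : C * (4 * η) * 2 ^ 3 = (C * (64 * η)) * 2⁻¹ := by
            rw [← NNReal.coe_inj]; push_cast; ring
          rw [this, hηC, one_mul]
      _ = 2⁻¹ := by rw [ENNReal.coe_inv (by norm_num)]; rfl
  -- the laws
  have hKrow : ∀ n x, x ∈ A (n * l) → ∑' y, K n x y = 1 := fun n x hx =>
    iter_row_one hr hs _ _ _ hx
  have hKwalk : ∀ n x y, K n x y ≠ 0 → ∃ p : G.Walk x y, p.length ≤ R * l := fun n x y h =>
    iter_walk hG hR _ _ _ _ h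
  have hKs : ∀ n x y, K n x y ≠ 0 → x ∈ A (n * l) := fun n x y h => iter_start hs _ l0 _ _ h
  have hKe : ∀ n x y, K n x y ≠ 0 → y ∈ A ((n + 1) * l) := by
    intro n x y h
    rw [show (n + 1) * l = n * l + l by ring]
    exact iter_end hs _ _ _ _ (hKs n x y h) h
  have hsumm : ∀ n x (hx : x ∈ A (n * l)), HasSum (K n x) 1 := by
    intro n x hx
    rw [← hKrow n x hx]
    exact ENNReal.summable.hasSum
  set q : Vr V → PMF V := fun i => if hx : i.2.1 ∈ A (i.1 * l) then
      toPMF (K i.1 i.2.1) (hsumm _ _ hx) else PMF.pure i.2.1 with hq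
  have hqv : ∀ n x b y, x ∈ A (n * l) → q (n, x, b) y = K n x y := by
    intro n x b y hx
    have h1 : q (n, x, b) = toPMF (K n x) (hsumm _ _ hx) := dif_pos hx
    rw [h1]
    rfl
  obtain ⟨B, hB⟩ := ball_bound hD (R * l)
  choose F hF hFc using hB
  have hlaws : Laws K (fun n => A (n * l)) q := by
    refine ⟨hqv, ?_⟩
    rintro ⟨n, x, b⟩
    by_cases hx : x ∈ A (n * l)
    · refine Set.Finite.subset (Finset.finite_toSet (F x)) ?_
      intro y hy
      have h1 : K n x y ≠ 0 := by
        rw [← hqv n x b y hx]; exact hy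
      obtain ⟨p, hp⟩ := hKwalk n x y h1
      exact hF x y p hp
    · refine Set.Finite.subset (Set.finite_singleton x) ?_
      intro y hy
      have h1 : q (n, x, b) = PMF.pure x := dif_neg hx
      by_contra hne
      apply hy
      rw [h1]
      exact PMF.pure_apply_of_ne x y hne
  obtain ⟨c, hc, hbad⟩ := all_avoid hlaws hKs hsum (by rw [ENNReal.inv_two_add_inv_two])
  obtain ⟨o, ho⟩ := hA
  have ho' : o ∈ A (0 * l) := by rwa [zero_mul]
  have hcK : ∀ m x b, x ∈ A (m * l) → K m x (c (m, x, b)) ≠ 0 := by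
    intro m x b hx
    rw [← hqv m x b _ hx]
    exact hc (m, x, b)
  refine tree_subgraph hD (fun t => run c 0 o t) ?_ (R * l) ?_
  · intro t t' htt
    exact run_inj (A := fun n => A (n * l)) hcK hKe hbad (t.length + t'.length) t t' 0 o ho'
      le_rfl htt
  · intro t b
    rw [run_snoc]
    exact hKwalk _ _ _ (hcK _ _ b (run_mem (A := fun n => A (n * l)) hcK hKe t 0 o ho'))

end

end Pool.Agent.W_55e385_h22
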