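import Mathlib

set_option autoImplicit false

/-!
# Paths, their weights and sums over paths
-/

namespace Pool.Agent.W_55e385_h22

open scoped ENNReal

open Classical in
/-- Products of the kernels of a time dependent chain:
`iter P m a x y` is the entry `(x, y)` of `P m * P (m + 1) * ... * P (m + a - 1)`. -/
noncomputable def iter {V : Type} (P : ℕ → V → V → ℝ≥0∞) : ℕ → ℕ → V → V → ℝ≥0∞
  | _, 0 => fun x y => if x = y then 1 else 0
  | m, a + 1 => fun x y => ∑' z, P m x z * iter P (m + 1) a z y

/-- The assignments along a path. -/
def alist {V : Type} : ℕ → V → List (Bool × V) → List ((ℕ × V × Bool) × V)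
  | _, _, [] => []
  | m, x, (b, y) :: l => ((m, x, b), y) :: alist (m + 1) y l

/-- The weight of a path. -/
noncomputable def wt {V : Type} (P : ℕ → V → V → ℝ≥0∞) : ℕ → V → List (Bool × V) → ℝ≥0∞
  | _, _, [] => 1
  | m, x, (_, y) :: l => P m x y * wt P (m + 1) y l

/-- The end point of a path. -/
def ep {V : Type} : V → List (Bool × V) → V
  | x, [] => x
  | _, (_, y) :: l => ep y l

section

variable {V : Type} (P : ℕ → V → V → ℝ≥0∞)

theorem alist_length (m : ℕ) (x : V) (l : List (Bool × V)) : (alist m x l).length = l.length := by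
  induction l generalizing m x with
  | nil => rfl
  | cons a l ih => obtain ⟨b, y⟩ := a; simp [alist, ih]

theorem wt_append (m : ℕ) (x : V) (u : List (Bool × V)) (b : Bool) (z : V) (w : List (Bool × V)) :
    wt P m x (u ++ (b, z) :: w)
      = wt P m x u * (P (m + u.length) (ep x u) z * wt P (m + u.length + 1) z w) := by
  induction u generalizing m x with
  | nil => simp [wt, ep]
  | cons a u ih =>
    obtain ⟨b', y⟩ := a
    simp only [List.cons_append, wt, ep, List.length_cons]
    rw [ih, show m + 1 + u.length = m + (u.length + 1) by ring, mul_assoc]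

theorem ep_append (x : V) (u : List (Bool × V)) (b : Bool) (z : V) (w : List (Bool × V)) :
    ep x (u ++ (b, z) :: w) = ep z w := by
  induction u generalizing x with
  | nil => rfl
  | cons a u ih => obtain ⟨b', y⟩ := a; simp only [List.cons_append, ep, ih]

theorem split (n : ℕ) (z : V) (b : Bool) (u : List (Bool × V)) (m : ℕ) (x : V)
    (h : (n, z, b) ∈ (alist m x u).map Prod.fst) :
    ∃ (u1 : List (Bool × V)) (z' : V) (u2 : List (Bool × V)),
      u = u1 ++ (b, z') :: u2 ∧ n = m + u1.length ∧ ep x u1 = z := by
  induction u generalizing m x with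
  | nil => simp [alist] at h
  | cons a u ih =>
    obtain ⟨b', y⟩ := a
    simp only [alist, List.map_cons, List.mem_cons] at h
    rcases h with h | h
    · simp only [Prod.mk.injEq] at h
      obtain ⟨rfl, rfl, rfl⟩ := h
      exact ⟨[], y, u, rfl, by simp, rfl⟩
    · obtain ⟨u1, z', u2, rfl, h2, h3⟩ := ih (m + 1) y h
      refine ⟨(b', y) :: u1, z', u2, rfl, ?_, h3⟩
      simp only [List.length_cons]
      omega

open Classical in
theorem sum_len (a m : ℕ) (x y : V) :
    (∑' l : List (Bool × V), if l.length = a ∧ ep x l = y then wt P m x l else 0)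
      = 2 ^ a * iter P m a x y := by
  induction a generalizing m x with
  | zero =>
    rw [tsum_eq_single []]
    · simp only [List.length_nil, ep, true_and, wt, pow_zero, one_mul, iter]
    · intro l hl
      rw [if_neg]
      rintro ⟨h, -⟩
      exact hl (List.length_eq_zero_iff.1 h)
  | succ a ih =>
    have hinj : Function.Injective (fun p : (Bool × V) × List (Bool × V) => p.1 :: p.2) := by
      rintro ⟨a1, l1⟩ ⟨a2, l2⟩ h
      simp only [List.cons.injEq] at h
      exact Prod.ext h.1 h.2
    rw [← hinj.tsum_eq (f := fun l : List (Bool × V) =>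
      if l.length = a + 1 ∧ ep x l = y then wt P m x l else 0)]
    · rw [ENNReal.tsum_prod', ENNReal.tsum_prod']
      have h1 : ∀ (b : Bool) (z : V), (∑' l : List (Bool × V),
          if ((b, z) :: l).length = a + 1 ∧ ep x ((b, z) :: l) = y then wt P m x ((b, z) :: l) else 0)
          = P m x z * (2 ^ a * iter P (m + 1) a z y) := by
        intro b z
        rw [← ih, ← ENNReal.tsum_mul_left]
        refine tsum_congr (fun l => ?_)
        simp only [List.length_cons, ep, wt, add_left_inj]
        split_ifs <;> simp
      simp only [h1]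
      have h2 : ∑' z, P m x z * (2 ^ a * iter P (m + 1) a z y)
          = 2 ^ a * ∑' z, P m x z * iter P (m + 1) a z y := by
        rw [← ENNReal.tsum_mul_left]
        exact tsum_congr (fun z => by ring)
      rw [tsum_fintype, Fintype.sum_bool, ← two_mul, h2]
      simp only [iter]
      ring
    · intro l hl
      cases l with
      | nil => simp at hl
      | cons a l => exact ⟨(a, l), rfl⟩

/-- The kernel step does not increase total mass. -/
theorem iter_succ (m a : ℕ) (x y : V) :
    iter P m (a + 1) x y = ∑' z, P m x z * iter P (m + 1) a z y := rfl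

theorem iter_row (h : ∀ m x, ∑' y, P m x y ≤ 1) (m a : ℕ) (x : V) :
    ∑' y, iter P m a x y ≤ 1 := by
  induction a generalizing m x with
  | zero =>
    simp only [iter]
    rw [tsum_eq_single x]
    · simp
    · intro y hy
      rw [if_neg (Ne.symm hy)]
  | succ a ih =>
    simp only [iter]
    rw [ENNReal.tsum_comm]
    calc ∑' z, ∑' y, P m x z * iter P (m + 1) a z y
        = ∑' z, P m x z * ∑' y, iter P (m + 1) a z y := by simp only [ENNReal.tsum_mul_left]
      _ ≤ ∑' z, P m x z * 1 := ENNReal.tsum_le_tsum (fun z => by gcongr; exact ih (m + 1) z)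
      _ ≤ 1 := by simpa using h m x

/-- The bound for two paths of lengths `j + (k + 1)` and `h` with a common start and a common end,
the first one going through `z` at time `n`. -/
theorem two_paths {C η : ℝ≥0∞} (hη : η ≤ 1)
    (hrow : ∀ m a x, ∑' y, iter P m a x y ≤ 1)
    (hcol : ∀ m a y, ∑' x, iter P m a x y ≤ C)
    (hdec : ∀ m a x y, iter P m a x y ≤ η ^ (3 * a)) (m n j k h : ℕ) (z : V) :
    ∑' x, ∑' y, iter P m j x z * iter P n (k + 1) z y * iter P m h x y
      ≤ C * η ^ (j + (k + 1) + h) := by
  have key : ∀ t : ℕ, t = j ∨ t = k + 1 ∨ t = h →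
      ∑' x, ∑' y, iter P m j x z * iter P n (k + 1) z y * iter P m h x y ≤ C * η ^ (3 * t) := by
    rintro t (rfl | rfl | rfl)
    · calc ∑' x, ∑' y, iter P m t x z * iter P n (k + 1) z y * iter P m h x y
          ≤ ∑' x, ∑' y, η ^ (3 * t) * (iter P n (k + 1) z y * iter P m h x y) := by
            refine ENNReal.tsum_le_tsum (fun x => ENNReal.tsum_le_tsum (fun y => ?_))
            rw [mul_assoc]
            gcongr
            exact hdec m t x z
        _ = η ^ (3 * t) * ∑' y, iter P n (k + 1) z y * ∑' x, iter P m h x y := by
            rw [ENNReal.tsum_comm]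
            simp only [ENNReal.tsum_mul_left]
        _ ≤ η ^ (3 * t) * ∑' y, iter P n (k + 1) z y * C := by
            gcongr with y
            exact hcol m h y
        _ = η ^ (3 * t) * ((∑' y, iter P n (k + 1) z y) * C) := by rw [ENNReal.tsum_mul_right]
        _ ≤ η ^ (3 * t) * (1 * C) := by gcongr; exact hrow n (k + 1) z
        _ = C * η ^ (3 * t) := by ring
    · calc ∑' x, ∑' y, iter P m j x z * iter P n (k + 1) z y * iter P m h x y
          ≤ ∑' x, ∑' y, iter P m j x z * η ^ (3 * (k + 1)) * iter P m h x y := by
            refine ENNReal.tsum_le_tsum (fun x => ENNReal.tsum_le_tsum (fun y => ?_))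
            gcongr
            exact hdec n (k + 1) z y
        _ = ∑' x, iter P m j x z * η ^ (3 * (k + 1)) * ∑' y, iter P m h x y := by
            simp only [ENNReal.tsum_mul_left]
        _ ≤ ∑' x, iter P m j x z * η ^ (3 * (k + 1)) * 1 := by
            gcongr with x
            exact hrow m h x
        _ = (∑' x, iter P m j x z) * η ^ (3 * (k + 1)) := by
            simp only [mul_one]
            rw [ENNReal.tsum_mul_right]
        _ ≤ C * η ^ (3 * (k + 1)) := by gcongr; exact hcol m j z
    · calc ∑' x, ∑' y, iter P m j x z * iter P n (k + 1) z y * iter P m t x y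
          ≤ ∑' x, ∑' y, iter P m j x z * iter P n (k + 1) z y * η ^ (3 * t) := by
            refine ENNReal.tsum_le_tsum (fun x => ENNReal.tsum_le_tsum (fun y => ?_))
            gcongr
            exact hdec m t x y
        _ = (∑' x, iter P m j x z) * (∑' y, iter P n (k + 1) z y) * η ^ (3 * t) := by
            simp only [ENNReal.tsum_mul_left, ENNReal.tsum_mul_right]
        _ ≤ C * 1 * η ^ (3 * t) := by
            gcongr
            · exact hcol m j z
            · exact hrow n (k + 1) z
        _ = C * η ^ (3 * t) := by ring
  rcases le_total j h with h1 | h1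
  · rcases le_total (k + 1) h with h2 | h2
    · refine (key h (Or.inr (Or.inr rfl))).trans ?_
      gcongr C * ?_
      exact pow_le_pow_right_of_le_one' hη (by omega)
    · refine (key (k + 1) (Or.inr (Or.inl rfl))).trans ?_
      gcongr C * ?_
      exact pow_le_pow_right_of_le_one' hη (by omega)
  · rcases le_total (k + 1) j with h2 | h2
    · refine (key j (Or.inl rfl)).trans ?_
      gcongr C * ?_
      exact pow_le_pow_right_of_le_one' hη (by omega)
    · refine (key (k + 1) (Or.inr (Or.inl rfl))).trans ?_
      gcongr C * ?_
      exact pow_le_pow_right_of_le_one' hη (by omega)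

end

end Pool.Agent.W_55e385_h22
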