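import Pool.Agent.W_55e385_h22.Core
import Pool.Agent.W_55e385_h22.Sub

set_option autoImplicit false

/-!
# Trees inside an unpredictable process
-/

namespace Pool.Agent.W_55e385_h22

open scoped ENNReal NNReal
open MeasureTheory

section

variable {V Ω : Type} [MeasurableSpace Ω]

/-- The first `N` steps of the random sequence `X` of vertices have length at most `R`, and given
any past the position `a` steps later is at a given vertex with probability at most
`C * ρ ^ a`. -/
def Unpredictable (G : SimpleGraph V) (R : ℕ) (C ρ : ℝ≥0) (N : ℕ) (μ : Measure Ω)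
    (X : ℕ → Ω → V) : Prop :=
  (∀ n y, MeasurableSet {ω | X n ω = y}) ∧
  (∀ n, n < N → ∀ᵐ ω ∂μ, G.dist (X n ω) (X (n + 1) ω) ≤ R) ∧
  ∀ m a, m + a ≤ N → ∀ (x : ℕ → V) (y : V),
    μ {ω | (∀ i ≤ m, X i ω = x i) ∧ X (m + a) ω = y} ≤
      C * (ρ : ℝ≥0∞) ^ a * μ {ω | ∀ i ≤ m, X i ω = x i}

/-- The history up to time `n`, latest position first. -/
def hist (X : ℕ → Ω → V) : ℕ → Ω → List V
  | 0, ω => [X 0 ω]
  | n + 1, ω => X (n + 1) ω :: hist X n ω

variable {X : ℕ → Ω → V}

omit [MeasurableSpace Ω] in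
theorem hist_eq_iff (n : ℕ) (ω ω' : Ω) :
    hist X n ω = hist X n ω' ↔ ∀ i ≤ n, X i ω = X i ω' := by
  induction n with
  | zero =>
    simp only [hist, List.cons.injEq, and_true]
    constructor
    · intro h i hi
      rwa [Nat.le_zero.1 hi]
    · intro h
      exact h 0 le_rfl
  | succ n ih =>
    simp only [hist, List.cons.injEq, ih]
    constructor
    · rintro ⟨h1, h2⟩ i hi
      rcases Nat.lt_or_ge n i with h3 | h3
      · rwa [show i = n + 1 by omega]
      · exact h2 i h3
    · intro h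
      exact ⟨h _ le_rfl, fun i hi => h i (by omega)⟩

omit [MeasurableSpace Ω] in
theorem hist_mono {m n : ℕ} (hmn : m ≤ n) {ω ω' : Ω} (h : hist X n ω = hist X n ω') :
    hist X m ω = hist X m ω' :=
  (hist_eq_iff _ _ _).2 (fun i hi => (hist_eq_iff _ _ _).1 h i (hi.trans hmn))

omit [MeasurableSpace Ω] in
theorem head_hist (o : V) (n : ℕ) (ω : Ω) : (hist X n ω).headD o = X n ω := by
  cases n <;> rfl

theorem meas_hist (hm : ∀ n y, MeasurableSet {ω | X n ω = y}) (n : ℕ) (h : List V) :
    MeasurableSet {ω | hist X n ω = h} := by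
  induction n generalizing h with
  | zero =>
    cases h with
    | nil => simp [hist]
    | cons y t =>
      have : {ω | hist X 0 ω = y :: t} = {ω | X 0 ω = y} ∩ {_ω | [] = t} := by
        ext ω; simp [hist]
      rw [this]
      exact (hm 0 y).inter (MeasurableSet.const _)
  | succ n ih =>
    cases h with
    | nil => simp [hist]
    | cons y t =>
      have : {ω | hist X (n + 1) ω = y :: t} =
          {ω | X (n + 1) ω = y} ∩ {ω | hist X n ω = t} := by
        ext ω; simp [hist]
      rw [this]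
      exact (hm _ y).inter (ih t)

theorem tsum_fib {β : Type} [Countable β] (μ : Measure Ω) (g : Ω → β)
    (hg : ∀ b, MeasurableSet {ω | g ω = b}) (A : Set Ω) (hA : MeasurableSet A) :
    ∑' b, μ (A ∩ {ω | g ω = b}) = μ A := by
  rw [← measure_iUnion]
  · congr 1
    ext ω
    simp
  · intro b c hbc
    rw [Function.onFun, Set.disjoint_left]
    rintro ω ⟨_, h1⟩ ⟨_, h2⟩
    exact hbc (h1.symm.trans h2)
  · exact fun b => hA.inter (hg b)

variable (μ : Measure Ω) (X)

/-- The kernel of `l` steps on histories. -/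
noncomputable def Kp (l k : ℕ) (h h' : List V) : ℝ≥0∞ :=
  μ ({ω | hist X (k * l) ω = h} ∩ {ω | hist X ((k + 1) * l) ω = h'}) /
    μ {ω | hist X (k * l) ω = h}

/-- The law of the position after `a * l` steps. -/
noncomputable def Lp (l k : ℕ) (h : List V) (a : ℕ) (z : V) : ℝ≥0∞ :=
  μ ({ω | hist X (k * l) ω = h} ∩ {ω | X ((k + a) * l) ω = z}) /
    μ {ω | hist X (k * l) ω = h}

/-- A history of positive probability, `n` moves before the horizon. -/
def Okp (l N n k : ℕ) (h : List V) : Prop :=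
  (k + n) * l ≤ N ∧ μ {ω | hist X (k * l) ω = h} ≠ 0

variable {X}

theorem sys_proc [Countable V] [IsProbabilityMeasure μ] {G : SimpleGraph V} {R N : ℕ}
    {C ρ : ℝ≥0} (o : V) (h : Unpredictable G R C ρ N μ X) (l : ℕ)
    (hl : ∀ a, 1 ≤ a → (C : ℝ≥0∞) * (ρ : ℝ≥0∞) ^ (a * l) ≤ (8⁻¹ ^ a) ^ 2) :
    Sys (fun h : List V => h.headD o) (Kp X μ l) (Lp X μ l) (Okp X μ l N) := by
  obtain ⟨hm, -, hdec⟩ := h
  have hmh := meas_hist hm
  refine ⟨?_, ?_, ?_, ?_, ?_, ?_⟩
  · rintro n k s ⟨-, hs⟩
    have : ∑' h', Kp X μ l k s h' = 1 := by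
      simp only [Kp, div_eq_mul_inv]
      rw [ENNReal.tsum_mul_right, tsum_fib μ _ (hmh _) _ (hmh _ _)]
      exact ENNReal.mul_inv_cancel hs (measure_ne_top _ _)
    rw [← this]
    exact ENNReal.summable.hasSum
  · rintro n k s s' ⟨hN, hs⟩ hK
    refine ⟨?_, ?_⟩
    · rwa [show k + 1 + n = k + (n + 1) by ring]
    · intro h0
      apply hK
      have : μ ({ω | hist X (k * l) ω = s} ∩ {ω | hist X ((k + 1) * l) ω = s'}) = 0 :=
        measure_mono_null Set.inter_subset_right h0
      rw [Kp, this, ENNReal.zero_div]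
  · rintro n k s ⟨-, hs⟩
    have : {ω | hist X (k * l) ω = s} ∩ {ω | X ((k + 0) * l) ω = s.headD o} =
        {ω | hist X (k * l) ω = s} := by
      refine Set.inter_eq_left.2 ?_
      intro ω hω
      change X ((k + 0) * l) ω = s.headD o
      rw [← (hω : hist X (k * l) ω = s), head_hist, add_zero]
    rw [Lp, this, ENNReal.div_self hs (measure_ne_top _ _)]
  · rintro n k s a z ⟨-, hs⟩ -
    have hterm : ∀ s', Kp X μ l k s s' * Lp X μ l (k + 1) s' a z ≤
        μ (({ω | hist X (k * l) ω = s} ∩ {ω | X ((k + (a + 1)) * l) ω = z}) ∩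
          {ω | hist X ((k + 1) * l) ω = s'}) * (μ {ω | hist X (k * l) ω = s})⁻¹ := by
      intro s'
      rcases Set.eq_empty_or_nonempty
        ({ω | hist X (k * l) ω = s} ∩ {ω | hist X ((k + 1) * l) ω = s'}) with he | ⟨w, hw1, hw2⟩
      · rw [Kp, he, measure_empty, ENNReal.zero_div, zero_mul]
        exact zero_le
      · have hsub : {ω | hist X ((k + 1) * l) ω = s'} ⊆ {ω | hist X (k * l) ω = s} := by
          intro ω hω
          have h1 : hist X ((k + 1) * l) ω = hist X ((k + 1) * l) w :=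
            (hω : _ = s').trans (hw2 : _ = s').symm
          exact (hist_mono (Nat.mul_le_mul_right l (Nat.le_succ k)) h1).trans hw1
        rw [Kp, Lp, Set.inter_eq_right.2 hsub, div_eq_mul_inv, mul_right_comm]
        gcongr
        refine ENNReal.mul_div_le.trans (measure_mono ?_)
        rintro ω ⟨h1, h2⟩
        refine ⟨⟨hsub h1, ?_⟩, h1⟩
        change X ((k + (a + 1)) * l) ω = z
        rwa [show k + (a + 1) = k + 1 + a by ring]
    refine (ENNReal.tsum_le_tsum hterm).trans ?_
    rw [ENNReal.tsum_mul_right, tsum_fib μ _ (hmh _) _ ((hmh _ _).inter (hm _ _)), Lp,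
      div_eq_mul_inv]
  · rintro n k s a ⟨-, hs⟩ -
    simp only [Lp, div_eq_mul_inv]
    rw [ENNReal.tsum_mul_right, tsum_fib μ _ (hm _) _ (hmh _ _),
      ENNReal.mul_inv_cancel hs (measure_ne_top _ _)]
  · rintro n k s a z ⟨hN, hs⟩ han
    rcases Nat.eq_zero_or_pos a with rfl | ha
    · rw [pow_zero, one_pow, Lp]
      exact ENNReal.div_le_of_le_mul (by
        rw [one_mul]; exact measure_mono Set.inter_subset_left)
    · refine le_trans ?_ (hl a ha)
      rw [Lp]
      refine ENNReal.div_le_of_le_mul ?_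
      have hne : {ω | hist X (k * l) ω = s}.Nonempty := by
        rw [Set.nonempty_iff_ne_empty]
        intro he
        rw [he, measure_empty] at hs
        exact hs rfl
      obtain ⟨w, hw⟩ := hne
      have e1 : {ω | hist X (k * l) ω = s} = {ω | ∀ i ≤ k * l, X i ω = X i w} := by
        ext ω
        change hist X (k * l) ω = s ↔ _
        rw [← (hw : _ = s), hist_eq_iff]
        rfl
      have h2 := hdec (k * l) (a * l) (by
        calc k * l + a * l = (k + a) * l := by ring
          _ ≤ (k + n) * l := Nat.mul_le_mul_right l (by omega)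
          _ ≤ N := hN) (fun i => X i w) z
      rw [e1]
      refine le_trans (measure_mono ?_) h2
      rintro ω ⟨h3, h4⟩
      refine ⟨h3, ?_⟩
      rwa [← add_mul]

end

end Pool.Agent.W_55e385_h22
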