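import Pool.Agent.W_55e385_h22.Path

set_option autoImplicit false

/-!
# The sum over path pairs through a variable
-/

namespace Pool.Agent.W_55e385_h22

open scoped ENNReal

/-- Indices of path pairs: time, start, two paths. -/
abbrev Tau (V : Type) : Type := ℕ × V × List (Bool × V) × List (Bool × V)

open Classical in
/-- The weight of a path pair with a common end whose first path uses the variable `i`. -/
noncomputable def term {V : Type} (P : ℕ → V → V → ℝ≥0∞) (i : ℕ × V × Bool) (τ : Tau V) : ℝ≥0∞ :=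
  if i ∈ (alist τ.1 τ.2.1 τ.2.2.1).map Prod.fst ∧ ep τ.2.1 τ.2.2.1 = ep τ.2.1 τ.2.2.2 then
    wt P τ.1 τ.2.1 τ.2.2.1 * wt P τ.1 τ.2.1 τ.2.2.2 * 2 ^ (τ.2.2.1.length + τ.2.2.2.length) else 0

open Classical in
/-- The same weight after splitting the first path at the variable. -/
noncomputable def term2 {V : Type} (P : ℕ → V → V → ℝ≥0∞) (n : ℕ) (z : V)
    (p : V × List (Bool × V) × V × List (Bool × V) × List (Bool × V)) : ℝ≥0∞ :=
  if ep p.1 p.2.1 = z ∧ ep p.2.2.1 p.2.2.2.1 = ep p.1 p.2.2.2.2 then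
    wt P (n - p.2.1.length) p.1 p.2.1 * (P n z p.2.2.1 * wt P (n + 1) p.2.2.1 p.2.2.2.1)
      * wt P (n - p.2.1.length) p.1 p.2.2.2.2
      * 2 ^ (p.2.1.length + 1 + p.2.2.2.1.length + p.2.2.2.2.length) else 0

theorem sum_term_le {V : Type} (P : ℕ → V → V → ℝ≥0∞) (n : ℕ) (z : V) (b : Bool) :
    ∑' τ, term P (n, z, b) τ ≤ ∑' p, term2 P n z p := by
  classical
  set S : Set (Tau V) := {τ | (n, z, b) ∈ (alist τ.1 τ.2.1 τ.2.2.1).map Prod.fst ∧
    ep τ.2.1 τ.2.2.1 = ep τ.2.1 τ.2.2.2} with hS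
  have h1 : ∀ τ : S, ∃ p : V × List (Bool × V) × V × List (Bool × V) × List (Bool × V),
      p.1 = τ.1.2.1 ∧ p.2.2.2.2 = τ.1.2.2.2 ∧ τ.1.2.2.1 = p.2.1 ++ (b, p.2.2.1) :: p.2.2.2.1 ∧
      n = τ.1.1 + p.2.1.length ∧ ep p.1 p.2.1 = z := by
    rintro ⟨⟨m, x, u, v⟩, h⟩
    obtain ⟨u1, z', u2, h2, h3, h4⟩ := split n z b u m x h.1
    exact ⟨(x, u1, z', u2, v), rfl, rfl, h2, h3, h4⟩
  choose g hg using h1
  have hinj : Function.Injective g := by
    rintro ⟨⟨m, x, u, v⟩, h⟩ ⟨⟨m', x', u', v'⟩, h'⟩ he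
    obtain ⟨a1, a2, a3, a4, a5⟩ := hg ⟨(m, x, u, v), h⟩
    obtain ⟨b1, b2, b3, b4, b5⟩ := hg ⟨(m', x', u', v'), h'⟩
    rw [← he] at b1 b2 b3 b4 b5
    simp only at a1 a2 a3 a4 b1 b2 b3 b4
    have e1 : m = m' := by omega
    have e2 : x = x' := a1.symm.trans b1
    have e3 : u = u' := a3.trans b3.symm
    have e4 : v = v' := a2.symm.trans b2
    subst e1 e2 e3 e4
    rfl
  calc ∑' τ, term P (n, z, b) τ = ∑' τ : S, term P (n, z, b) τ := by
        rw [tsum_subtype]
        refine tsum_congr (fun τ => ?_)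
        by_cases h : τ ∈ S
        · rw [Set.indicator_of_mem h]
        · rw [Set.indicator_of_notMem h, term]
          exact if_neg h
    _ ≤ ∑' τ : S, term2 P n z (g τ) := by
        refine ENNReal.tsum_le_tsum (fun τ => ?_)
        obtain ⟨⟨m, x, u, v⟩, h⟩ := τ
        obtain ⟨a1, a2, a3, a4, a5⟩ := hg ⟨(m, x, u, v), h⟩
        generalize hgg : g ⟨(m, x, u, v), h⟩ = p at a1 a2 a3 a4 a5
        obtain ⟨x', u1, z', u2, v'⟩ := p
        simp only at a1 a2 a3 a4 a5
        subst a1 a2 a3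
        have h0 := h.2
        simp only at h0
        rw [ep_append] at h0
        have hm : n - u1.length = m := by omega
        have hm' : m + u1.length = n := a4.symm
        have e1 : term P (n, z, b) (m, x', u1 ++ (b, z') :: u2, v')
            = wt P m x' (u1 ++ (b, z') :: u2) * wt P m x' v'
              * 2 ^ ((u1 ++ (b, z') :: u2).length + v'.length) := if_pos ⟨h.1, h.2⟩
        have e2 : term2 P n z (x', u1, z', u2, v')
            = wt P (n - u1.length) x' u1 * (P n z z' * wt P (n + 1) z' u2)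
              * wt P (n - u1.length) x' v' * 2 ^ (u1.length + 1 + u2.length + v'.length) :=
          if_pos ⟨a5, h0⟩
        rw [e1, e2, wt_append, hm, hm', a5]
        refine le_of_eq ?_
        have h5 : (u1 ++ (b, z') :: u2).length + v'.length
            = u1.length + 1 + u2.length + v'.length := by
          simp only [List.length_append, List.length_cons]; ring
        rw [h5]
    _ ≤ ∑' p, term2 P n z p := ENNReal.tsum_comp_le_tsum_of_injective hinj _

open Classical in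
/-- The summand with prescribed lengths and end point. -/
noncomputable def phi {V : Type} (P : ℕ → V → V → ℝ≥0∞) (n : ℕ) (z : V)
    (p : V × List (Bool × V) × V × List (Bool × V) × List (Bool × V)) (q : ℕ × ℕ × ℕ × V) :
    ℝ≥0∞ :=
  (if p.2.1.length = q.1 ∧ ep p.1 p.2.1 = z then wt P (n - q.1) p.1 p.2.1 else 0)
    * (P n z p.2.2.1 * (if p.2.2.2.1.length = q.2.1 ∧ ep p.2.2.1 p.2.2.2.1 = q.2.2.2 then
        wt P (n + 1) p.2.2.1 p.2.2.2.1 else 0))
    * (if p.2.2.2.2.length = q.2.2.1 ∧ ep p.1 p.2.2.2.2 = q.2.2.2 then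
        wt P (n - q.1) p.1 p.2.2.2.2 else 0)
    * 2 ^ (q.1 + 1 + q.2.1 + q.2.2.1)

theorem term2_le {V : Type} (P : ℕ → V → V → ℝ≥0∞) (n : ℕ) (z : V)
    (p : V × List (Bool × V) × V × List (Bool × V) × List (Bool × V)) :
    term2 P n z p ≤ ∑' q, phi P n z p q := by
  classical
  by_cases h : ep p.1 p.2.1 = z ∧ ep p.2.2.1 p.2.2.2.1 = ep p.1 p.2.2.2.2
  · refine le_trans ?_ (ENNReal.le_tsum
      (p.2.1.length, p.2.2.2.1.length, p.2.2.2.2.length, ep p.2.2.1 p.2.2.2.1))
    rw [term2, if_pos h, phi]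
    simp only
    rw [if_pos ⟨trivial, h.1⟩, if_pos ⟨trivial, trivial⟩, if_pos ⟨trivial, h.2.symm⟩]
  · rw [term2, if_neg h]
    exact zero_le

theorem sum_phi {V : Type} (P : ℕ → V → V → ℝ≥0∞) (n : ℕ) (z : V) (j k h : ℕ) (y : V) :
    ∑' p, phi P n z p (j, k, h, y)
      = ∑' x, 2 ^ j * iter P (n - j) j x z * (2 ^ k * iter P n (k + 1) z y)
        * (2 ^ h * iter P (n - j) h x y) * 2 ^ (j + 1 + k + h) := by
  classical
  rw [ENNReal.tsum_prod']
  refine tsum_congr (fun x => ?_)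
  rw [ENNReal.tsum_prod']
  simp only [ENNReal.tsum_prod', phi, ENNReal.tsum_mul_left, ENNReal.tsum_mul_right, sum_len]
  congr 3
  rw [iter_succ, ← ENNReal.tsum_mul_left]
  exact tsum_congr (fun z' => by ring)

theorem sum_term {V : Type} (P : ℕ → V → V → ℝ≥0∞) {C η : ℝ≥0∞} (hη : η ≤ 1)
    (hrow : ∀ m a x, ∑' y, iter P m a x y ≤ 1)
    (hcol : ∀ m a y, ∑' x, iter P m a x y ≤ C)
    (hdec : ∀ m a x y, iter P m a x y ≤ η ^ (3 * a)) (i : ℕ × V × Bool) :
    ∑' τ, term P i τ ≤ C * (4 * η) * ((1 - 4 * η)⁻¹) ^ 3 := by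
  obtain ⟨n, z, b⟩ := i
  calc ∑' τ, term P (n, z, b) τ ≤ ∑' p, term2 P n z p := sum_term_le P n z b
    _ ≤ ∑' p, ∑' q, phi P n z p q := ENNReal.tsum_le_tsum (fun p => term2_le P n z p)
    _ = ∑' q, ∑' p, phi P n z p q := ENNReal.tsum_comm
    _ = ∑' j : ℕ, ∑' k : ℕ, ∑' h : ℕ, ∑' y, ∑' p, phi P n z p (j, k, h, y) := by
        simp only [ENNReal.tsum_prod']
    _ ≤ ∑' j : ℕ, ∑' k : ℕ, ∑' h : ℕ, C * (4 * η) * ((4 * η) ^ j * ((4 * η) ^ k * (4 * η) ^ h)) := by
        refine ENNReal.tsum_le_tsum (fun j => ENNReal.tsum_le_tsum (fun k =>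
          ENNReal.tsum_le_tsum (fun h => ?_)))
        simp only [sum_phi]
        rw [ENNReal.tsum_comm]
        calc ∑' x, ∑' y, 2 ^ j * iter P (n - j) j x z * (2 ^ k * iter P n (k + 1) z y)
              * (2 ^ h * iter P (n - j) h x y) * 2 ^ (j + 1 + k + h)
            = (2 ^ j * 2 ^ k * 2 ^ h * 2 ^ (j + 1 + k + h)) * ∑' x, ∑' y,
                iter P (n - j) j x z * iter P n (k + 1) z y * iter P (n - j) h x y := by
              rw [← ENNReal.tsum_mul_left]
              refine tsum_congr (fun x => ?_)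
              rw [← ENNReal.tsum_mul_left]
              exact tsum_congr (fun y => by ring)
          _ ≤ (2 ^ j * 2 ^ k * 2 ^ h * 2 ^ (j + 1 + k + h)) * (C * η ^ (j + (k + 1) + h)) := by
              gcongr
              exact two_paths P hη hrow hcol hdec (n - j) n j k h z
          _ ≤ (2 * (2 ^ j * 2 ^ k * 2 ^ h * 2 ^ (j + 1 + k + h))) * (C * η ^ (j + (k + 1) + h)) := by
              rw [mul_assoc (2 : ℝ≥0∞), two_mul]
              exact le_self_add
          _ = _ := by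
              have h4 : ∀ a : ℕ, (4 * η) ^ a = 2 ^ a * 2 ^ a * η ^ a := by
                intro a
                rw [← mul_pow, ← mul_pow]
                norm_num
              rw [h4, h4, h4]
              rw [show (4 : ℝ≥0∞) = 2 * 2 by norm_num]
              ring
    _ = C * (4 * η) * ((1 - 4 * η)⁻¹) ^ 3 := by
        simp only [ENNReal.tsum_mul_left, ENNReal.tsum_mul_right, ENNReal.tsum_geometric]
        ring

end Pool.Agent.W_55e385_h22
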