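import Pool.Agent.W_55e385_h22.Coin

set_option autoImplicit false

/-!
# The characterization
-/

namespace Pool.Agent.W_55e385_h22

open scoped ENNReal NNReal
open MeasureTheory

section

variable {V : Type} {G : SimpleGraph V}

theorem degree_bound (hG : G.Connected) (hf : ∀ v, (G.neighborSet v).Finite)
    (ht : ∀ u v : V, ∃ φ : G ≃g G, φ u = v) :
    ∃ D : ℕ, ∀ v, (G.neighborSet v).Finite ∧ (G.neighborSet v).ncard ≤ D := by
  obtain ⟨o⟩ := hG.nonempty
  refine ⟨(G.neighborSet o).ncard, fun v => ⟨hf v, ?_⟩⟩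
  obtain ⟨φ, rfl⟩ := ht o v
  have h : Nat.card (G.neighborSet o) = Nat.card (G.neighborSet (φ o)) :=
    Nat.card_congr (φ.mapNeighborSet o)
  rw [Nat.card_coe_set_eq, Nat.card_coe_set_eq] at h
  exact h.symm.le

/-- The characterization in a graph of bounded degree. -/
theorem iff_process (hG : G.Connected) {D : ℕ}
    (hD : ∀ v, (G.neighborSet v).Finite ∧ (G.neighborSet v).ncard ≤ D) :
    HasExpandingSubgraph G ↔
      ∃ (R : ℕ) (C ρ : ℝ≥0), ρ < 1 ∧ ∃ (Ω : Type) (_ : MeasurableSpace Ω) (μ : Measure Ω)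
        (X : ℕ → Ω → V), IsProbabilityMeasure μ ∧ ∀ N, Unpredictable G R C ρ N μ X := by
  constructor
  · exact process_of_subgraph hD
  · rintro ⟨R, C, ρ, hρ, Ω, _, μ, X, hμ, hX⟩
    exact subgraph_of_process hG hD R C ρ hρ μ X hX

/-- In a transitive graph finite processes are enough. -/
theorem iff_finite (hG : G.Connected) (hf : ∀ v, (G.neighborSet v).Finite)
    (ht : ∀ u v : V, ∃ φ : G ≃g G, φ u = v) :
    HasExpandingSubgraph G ↔
      ∃ (R : ℕ) (C ρ : ℝ≥0), ρ < 1 ∧ ∀ N, ∃ (Ω : Type) (_ : MeasurableSpace Ω) (μ : Measure Ω)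
        (X : ℕ → Ω → V), IsProbabilityMeasure μ ∧ Unpredictable G R C ρ N μ X := by
  obtain ⟨D, hD⟩ := degree_bound hG hf ht
  constructor
  · intro h
    obtain ⟨R, C, ρ, hρ, Ω, i, μ, X, hμ, hX⟩ := process_of_subgraph hD h
    exact ⟨R, C, ρ, hρ, fun N => ⟨Ω, i, μ, X, hμ, hX N⟩⟩
  · rintro ⟨R, C, ρ, hρ, h⟩
    exact subgraph_of_finite_processes hG hD ht R C ρ hρ h

end

end Pool.Agent.W_55e385_h22
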