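import Pool.Agent.W_55e385_h22.Lll
import Pool.Agent.W_55e385_h22.Sum

set_option autoImplicit false

/-!
# Maps without collisions
-/

namespace Pool.Agent.W_55e385_h22

open MeasureTheory
open scoped ENNReal

/-- The variables. -/
abbrev Vr (V : Type) : Type := ℕ × V × Bool

/-- All steps of the path have positive weight. -/
def Adm {V : Type} (P : ℕ → V → V → ℝ≥0∞) : ℕ → V → List (Bool × V) → Prop
  | _, _, [] => True
  | m, x, (_, y) :: l => P m x y ≠ 0 ∧ Adm P (m + 1) y l

/-- The pattern of a path pair. -/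
def pat {V : Type} (τ : Tau V) : List (Vr V × V) :=
  alist τ.1 τ.2.1 τ.2.2.1 ++ alist τ.1 τ.2.1 τ.2.2.2

/-- Bad path pairs. -/
def Bad {V : Type} (P : ℕ → V → V → ℝ≥0∞) (τ : Tau V) : Prop :=
  Adm P τ.1 τ.2.1 τ.2.2.1 ∧ Adm P τ.1 τ.2.1 τ.2.2.2 ∧ τ.2.2.1 ≠ [] ∧
    ep τ.2.1 τ.2.2.1 = ep τ.2.1 τ.2.2.2 ∧ ((pat τ).map Prod.fst).Nodup

/-- A law for every variable, given by the rows of the kernels on the sets `A n`. -/
structure Laws {V : Type} (P : ℕ → V → V → ℝ≥0∞) (A : ℕ → Set V) (q : Vr V → PMF V) : Prop where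
  val : ∀ n x b y, x ∈ A n → q (n, x, b) y = P n x y
  fin : ∀ i, {y | q i y ≠ 0}.Finite

section

variable {V : Type} {P : ℕ → V → V → ℝ≥0∞} {A : ℕ → Set V} {q : Vr V → PMF V}

theorem wgt_alist (hq : Laws P A q) (hs : ∀ n x y, P n x y ≠ 0 → x ∈ A n) (l : List (Bool × V))
    (m : ℕ) (x : V) (h : Adm P m x l) : wgt q (alist m x l) = wt P m x l := by
  induction l generalizing m x with
  | nil => simp [wgt, alist, wt]
  | cons a l ih =>
    obtain ⟨b, y⟩ := a
    have h2 := ih (m + 1) y h.2
    simp only [wgt, alist, wt, List.map_cons, List.prod_cons] at h2 ⊢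
    rw [h2, hq.val m x b y (hs m x y h.1)]

theorem wgt_pat (hq : Laws P A q) (hs : ∀ n x y, P n x y ≠ 0 → x ∈ A n) (τ : Tau V)
    (h : Bad P τ) : wgt q (pat τ) = wt P τ.1 τ.2.1 τ.2.2.1 * wt P τ.1 τ.2.1 τ.2.2.2 := by
  have h1 : wgt q (pat τ) = wgt q (alist τ.1 τ.2.1 τ.2.2.1) * wgt q (alist τ.1 τ.2.1 τ.2.2.2) := by
    simp [wgt, pat]
  rw [h1, wgt_alist hq hs _ _ _ h.1, wgt_alist hq hs _ _ _ h.2.1]

/-- The condition of the local lemma. -/
theorem cond (hq : Laws P A q) (hs : ∀ n x y, P n x y ≠ 0 → x ∈ A n) {B : ℝ≥0∞}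
    (hB : ∀ i, ∑' τ, term P i τ ≤ B) (hB1 : B + B ≤ 1) (Γ : Finset (Tau V))
    (hΓ : ∀ τ ∈ Γ, Bad P τ) [DecidableEq (Vr V)] (i : Vr V) :
    ∑ τ ∈ Γ.filter (fun τ => i ∈ (pat τ).map Prod.fst), wgt q (pat τ) * 2 ^ (pat τ).length ≤ 1 := by
  have h1 : ∀ τ ∈ Γ.filter (fun τ => i ∈ (pat τ).map Prod.fst),
      wgt q (pat τ) * 2 ^ (pat τ).length
        ≤ term P i τ + term P i (τ.1, τ.2.1, τ.2.2.2, τ.2.2.1) := by
    intro τ hτ
    rw [Finset.mem_filter] at hτ
    have hb := hΓ τ hτ.1
    rw [wgt_pat hq hs τ hb]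
    have hl : (pat τ).length = τ.2.2.1.length + τ.2.2.2.length := by
      rw [pat, List.length_append, alist_length, alist_length]
    rw [hl]
    have hm := hτ.2
    rw [pat, List.map_append, List.mem_append] at hm
    rcases hm with hm | hm
    · refine le_trans (le_of_eq ?_) le_self_add
      exact (if_pos ⟨hm, hb.2.2.2.1⟩).symm
    · refine le_trans (le_of_eq ?_) le_add_self
      rw [term, if_pos ⟨hm, hb.2.2.2.1.symm⟩]
      simp only
      rw [mul_comm (wt P τ.1 τ.2.1 τ.2.2.1), add_comm τ.2.2.1.length]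
  have hinj : Function.Injective
      (fun τ : Tau V => ((τ.1, τ.2.1, τ.2.2.2, τ.2.2.1) : Tau V)) := by
    rintro ⟨m, x, u, v⟩ ⟨m', x', u', v'⟩ h
    simp only [Prod.mk.injEq] at h ⊢
    tauto
  calc _ ≤ ∑ τ ∈ Γ.filter (fun τ => i ∈ (pat τ).map Prod.fst),
        (term P i τ + term P i (τ.1, τ.2.1, τ.2.2.2, τ.2.2.1)) := Finset.sum_le_sum h1
    _ ≤ ∑' τ, (term P i τ + term P i (τ.1, τ.2.1, τ.2.2.2, τ.2.2.1)) := ENNReal.sum_le_tsum _
    _ = ∑' τ, term P i τ + ∑' τ : Tau V, term P i (τ.1, τ.2.1, τ.2.2.2, τ.2.2.1) :=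
        ENNReal.tsum_add
    _ ≤ B + B := add_le_add (hB i)
        ((ENNReal.tsum_comp_le_tsum_of_injective hinj (term P i)).trans (hB i))
    _ ≤ 1 := hB1

/-- Finitely many bad patterns can be avoided. -/
theorem finite_avoid (hq : Laws P A q) (hs : ∀ n x y, P n x y ≠ 0 → x ∈ A n) {B : ℝ≥0∞}
    (hB : ∀ i, ∑' τ, term P i τ ≤ B) (hB1 : B + B ≤ 1) (Γ : Finset (Tau V))
    (hΓ : ∀ τ ∈ Γ, Bad P τ) :
    ∃ c : Vr V → V, (∀ i, q i (c i) ≠ 0) ∧ ∀ τ ∈ Γ, ¬ Occ c (pat τ) := by
  classical
  let _ : MeasurableSpace V := ⊤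
  have _ : MeasurableSingletonClass V := ⟨fun _ => trivial⟩
  set J : Finset (Vr V) := Γ.biUnion (fun τ => ((pat τ).map Prod.fst).toFinset) with hJ
  have h1 : 0 < Pr q (Gd Γ pat J) := by
    refine avoid q Γ pat (fun τ hτ => (hΓ τ hτ).2.2.2.2) ?_ (cond hq hs hB hB1 Γ hΓ) J
    intro τ hτ h0
    have h2 := (hΓ τ hτ).2.2.1
    have h3 : (pat τ).length = τ.2.2.1.length + τ.2.2.2.length := by
      rw [pat, List.length_append, alist_length, alist_length]
    rw [h0, List.length_nil] at h3
    exact h2 (List.length_eq_zero_iff.1 (by omega))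
  have h2 : ∀ i, Pr q {c : Vr V → V | q i (c i) = 0} = 0 := by
    intro i
    have h3 : {c : Vr V → V | q i (c i) = 0}
        = Set.pi (({i} : Finset (Vr V)) : Set (Vr V)) (fun _ => {v | q i v = 0}) := by
      ext c
      simp
    rw [h3, Pr, Measure.infinitePi_pi _ (fun _ _ => MeasurableSpace.measurableSet_top), Finset.prod_singleton,
      PMF.toMeasure_apply_eq_zero_iff _ MeasurableSpace.measurableSet_top, Set.disjoint_left]
    intro v hv hv'
    exact (PMF.mem_support_iff _ _).1 hv hv'
  have h3 : Pr q (⋃ i ∈ (J : Set (Vr V)), {c : Vr V → V | q i (c i) = 0}) = 0 :=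
    (measure_biUnion_null_iff (Finset.countable_toSet J)).2 (fun i _ => h2 i)
  have h4 : ¬ Gd Γ pat J ⊆ ⋃ i ∈ (J : Set (Vr V)), {c : Vr V → V | q i (c i) = 0} := by
    intro h
    exact absurd (measure_mono_null h h3) (ne_of_gt h1)
  rw [Set.not_subset] at h4
  obtain ⟨c, hc, hc'⟩ := h4
  simp only [Set.mem_iUnion, not_exists] at hc'
  have h5 : ∀ i, ∃ v, q i v ≠ 0 := by
    intro i
    obtain ⟨v, hv⟩ := (q i).support_nonempty
    exact ⟨v, (PMF.mem_support_iff _ _).1 hv⟩
  choose d hd using h5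
  refine ⟨fun i => if i ∈ J then c i else d i, ?_, ?_⟩
  · intro i
    simp only
    split_ifs with hi
    · intro h0
      exact hc' i (by simpa using hi) h0
    · exact hd i
  · intro τ hτ hocc
    have hin : ∀ a ∈ pat τ, a.1 ∈ J := by
      intro a ha
      rw [hJ, Finset.mem_biUnion]
      refine ⟨τ, hτ, ?_⟩
      rw [List.mem_toFinset]
      exact List.mem_map_of_mem ha
    refine hc τ hτ hin (fun a ha => ?_)
    have h7 := hocc a ha
    simp only at h7
    rwa [if_pos (hin a ha)] at h7

/-- All bad patterns can be avoided. -/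
theorem all_avoid (hq : Laws P A q) (hs : ∀ n x y, P n x y ≠ 0 → x ∈ A n) {B : ℝ≥0∞}
    (hB : ∀ i, ∑' τ, term P i τ ≤ B) (hB1 : B + B ≤ 1) :
    ∃ c : Vr V → V, (∀ i, q i (c i) ≠ 0) ∧ ∀ τ, Bad P τ → ¬ Occ c (pat τ) := by
  classical
  let _ : TopologicalSpace V := ⊥
  have _ : DiscreteTopology V := ⟨rfl⟩
  have hK : IsCompact (Set.pi Set.univ (fun i : Vr V => {y | q i y ≠ 0})) :=
    isCompact_univ_pi (fun i => (hq.fin i).isCompact)
  have hopen : ∀ γ : List (Vr V × V), IsOpen {c : Vr V → V | Occ c γ} := by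
    intro γ
    induction γ with
    | nil =>
      have : {c : Vr V → V | Occ c []} = Set.univ := by ext c; simp [Occ]
      rw [this]; exact isOpen_univ
    | cons a l ih =>
      have h1 : {c : Vr V → V | Occ c (a :: l)}
          = (fun c : Vr V → V => c a.1) ⁻¹' {a.2} ∩ {c | Occ c l} := by
        ext c; simp [Occ]
      rw [h1]
      exact ((isOpen_discrete _).preimage (continuous_apply a.1)).inter ih
  have h1 := hK.inter_iInter_nonempty
    (fun τ : {τ : Tau V // Bad P τ} => {c : Vr V → V | Occ c (pat τ.1)}ᶜ)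
    (fun τ => (hopen _).isClosed_compl) ?_
  · obtain ⟨c, hc, hc'⟩ := h1
    rw [Set.mem_iInter] at hc'
    exact ⟨c, fun i => hc i trivial, fun τ hτ => hc' ⟨τ, hτ⟩⟩
  · intro u
    obtain ⟨c, hc, hc'⟩ := finite_avoid hq hs hB hB1 (u.image Subtype.val) (by
      intro τ hτ
      rw [Finset.mem_image] at hτ
      obtain ⟨t, -, rfl⟩ := hτ
      exact t.2)
    refine ⟨c, fun i _ => hc i, ?_⟩
    rw [Set.mem_iInter₂]
    intro τ hτ
    exact hc' τ.1 (Finset.mem_image_of_mem _ hτ)

end

/-- The end of the walk that follows the letters of a word. -/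
def run {V : Type} (c : Vr V → V) : ℕ → V → List Bool → V
  | _, x, [] => x
  | m, x, b :: t => run c (m + 1) (c (m, x, b)) t

/-- The path of the walk that follows the letters of a word. -/
def pth {V : Type} (c : Vr V → V) : ℕ → V → List Bool → List (Bool × V)
  | _, _, [] => []
  | m, x, b :: t => (b, c (m, x, b)) :: pth c (m + 1) (c (m, x, b)) t

section

variable {V : Type} {P : ℕ → V → V → ℝ≥0∞} {A : ℕ → Set V} {c : Vr V → V}

theorem ep_pth (t : List Bool) (m : ℕ) (x : V) : ep x (pth c m x t) = run c m x t := by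
  induction t generalizing m x with
  | nil => rfl
  | cons b t ih => simp only [pth, ep, run, ih]

theorem occ_pth (t : List Bool) (m : ℕ) (x : V) : Occ c (alist m x (pth c m x t)) := by
  induction t generalizing m x with
  | nil => intro a ha; simp [pth, alist] at ha
  | cons b t ih =>
    intro a ha
    simp only [pth, alist, List.mem_cons] at ha
    rcases ha with rfl | ha
    · rfl
    · exact ih _ _ a ha

theorem key_pth (n : ℕ) (z : V) (b : Bool) (t : List Bool) (m : ℕ) (x : V)
    (h : (n, z, b) ∈ (alist m x (pth c m x t)).map Prod.fst) :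
    ∃ t1 t2, t = t1 ++ b :: t2 ∧ n = m + t1.length ∧ z = run c m x t1 := by
  induction t generalizing m x with
  | nil => simp [pth, alist] at h
  | cons b' t ih =>
    simp only [pth, alist, List.map_cons, List.mem_cons] at h
    rcases h with h | h
    · simp only [Prod.mk.injEq] at h
      obtain ⟨rfl, rfl, rfl⟩ := h
      exact ⟨[], t, rfl, by simp, rfl⟩
    · obtain ⟨t1, t2, rfl, h2, h3⟩ := ih (m + 1) (c (m, x, b')) h
      refine ⟨b' :: t1, t2, rfl, ?_, h3⟩
      simp only [List.length_cons]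
      omega

theorem nodup_pth (t : List Bool) (m : ℕ) (x : V) :
    ((alist m x (pth c m x t)).map Prod.fst).Nodup := by
  induction t generalizing m x with
  | nil => simp [pth, alist]
  | cons b t ih =>
    simp only [pth, alist, List.map_cons, List.nodup_cons]
    refine ⟨?_, ih _ _⟩
    intro h
    obtain ⟨t1, t2, -, h2, -⟩ := key_pth m x b t (m + 1) _ h
    omega

theorem adm_pth (hc : ∀ m x b, x ∈ A m → P m x (c (m, x, b)) ≠ 0)
    (hA : ∀ m x y, P m x y ≠ 0 → y ∈ A (m + 1)) (t : List Bool) (m : ℕ) (x : V) (hx : x ∈ A m) :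
    Adm P m x (pth c m x t) := by
  induction t generalizing m x with
  | nil => trivial
  | cons b t ih =>
    have h1 := hc m x b hx
    exact ⟨h1, ih _ _ (hA m x _ h1)⟩

theorem run_mem (hc : ∀ m x b, x ∈ A m → P m x (c (m, x, b)) ≠ 0)
    (hA : ∀ m x y, P m x y ≠ 0 → y ∈ A (m + 1)) (t : List Bool) (m : ℕ) (x : V) (hx : x ∈ A m) :
    run c m x t ∈ A (m + t.length) := by
  induction t generalizing m x with
  | nil => simpa [run] using hx
  | cons b t ih =>
    have h1 := ih (m + 1) _ (hA m x _ (hc m x b hx))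
    simp only [run, List.length_cons]
    rwa [show m + (t.length + 1) = m + 1 + t.length by ring]

theorem run_snoc (t : List Bool) (b : Bool) (m : ℕ) (x : V) :
    run c m x (t ++ [b]) = c (m + t.length, run c m x t, b) := by
  induction t generalizing m x with
  | nil => rfl
  | cons b' t ih =>
    simp only [List.cons_append, run, List.length_cons]
    rw [ih, show m + 1 + t.length = m + (t.length + 1) by ring]

/-- No collisions. -/
theorem run_inj (hc : ∀ m x b, x ∈ A m → P m x (c (m, x, b)) ≠ 0)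
    (hA : ∀ m x y, P m x y ≠ 0 → y ∈ A (m + 1)) (hbad : ∀ τ, Bad P τ → ¬ Occ c (pat τ)) (N : ℕ) :
    ∀ (t t' : List Bool) (m : ℕ) (x : V), x ∈ A m → t.length + t'.length ≤ N →
      run c m x t = run c m x t' → t = t' := by
  induction N with
  | zero =>
    intro t t' m x _ h _
    have h1 : t.length = 0 := by omega
    have h2 : t'.length = 0 := by omega
    rw [List.length_eq_zero_iff.1 h1, List.length_eq_zero_iff.1 h2]
  | succ N ih =>
    -- the core: heads differ
    have core : ∀ (t t' : List Bool) (m : ℕ) (x : V), x ∈ A m → t.length + t'.length ≤ N + 1 →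
        run c m x t = run c m x t' → t ≠ [] →
        (∀ b s b' s', t = b :: s → t' = b' :: s' → b ≠ b') → False := by
      intro t t' m x hx hN hr hne hh
      refine hbad (m, x, pth c m x t, pth c m x t') ⟨adm_pth hc hA t m x hx,
        adm_pth hc hA t' m x hx, ?_, ?_, ?_⟩ ?_
      · cases t with
        | nil => exact absurd rfl hne
        | cons b t => simp [pth]
      · simp only
        rw [ep_pth, ep_pth, hr]
      · simp only [pat]
        rw [List.map_append, List.nodup_append]
        refine ⟨nodup_pth t m x, nodup_pth t' m x, ?_⟩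
        rintro ⟨n, z, b⟩ h1 ⟨n', z', b'⟩ h2 he
        rw [← he] at h2
        obtain ⟨t1, t2, e1, e2, e3⟩ := key_pth n z b t m x h1
        obtain ⟨s1, s2, f1, f2, f3⟩ := key_pth n z b t' m x h2
        have e4 : t1 = s1 := by
          refine ih t1 s1 m x hx ?_ (e3.symm.trans f3)
          have g1 : t.length = t1.length + (t2.length + 1) := by
            rw [e1, List.length_append, List.length_cons]
          have g2 : t'.length = s1.length + (s2.length + 1) := by
            rw [f1, List.length_append, List.length_cons]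
          omega
        subst e4
        cases t1 with
        | nil => exact hh b t2 b s2 e1 f1 rfl
        | cons d t1 => exact hh d _ d _ e1 f1 rfl
      · intro a ha
        simp only [pat, List.mem_append] at ha
        rcases ha with ha | ha
        · exact occ_pth t m x a ha
        · exact occ_pth t' m x a ha
    intro t t' m x hx hN hr
    cases t with
    | nil =>
      cases t' with
      | nil => rfl
      | cons b' s' =>
        exact (core (b' :: s') [] m x hx (by omega) hr.symm (by simp) (by simp)).elim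
    | cons b s =>
      cases t' with
      | nil => exact (core (b :: s) [] m x hx hN hr (by simp) (by simp)).elim
      | cons b' s' =>
        by_cases hb : b = b'
        · subst hb
          simp only [List.length_cons] at hN
          rw [ih s s' (m + 1) (c (m, x, b)) (hA m x _ (hc m x b hx)) (by omega) hr]
        · refine (core (b :: s) (b' :: s') m x hx hN hr (by simp) ?_).elim
          intro d w d' w' h1 h2
          simp only [List.cons.injEq] at h1 h2
          rw [← h1.1, ← h2.1]
          exact hb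

end

end Pool.Agent.W_55e385_h22
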